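import Mathlib

/-!
Averages over the discrete cube and Rademacher sums: second and fourth moments, the elementary
lower bound `E|X| ≥ σ/2`, and restriction to a subset of the coordinates.
-/

set_option autoImplicit false
open Finset

namespace Pool.Agent.PC55

/-- the sign of a bit -/
noncomputable def sg (b : Bool) : ℝ := if b then 1 else -1

@[simp] lemma sg_true : sg true = 1 := by simp [sg]
@[simp] lemma sg_false : sg false = -1 := by simp [sg]
lemma sg_sq (b : Bool) : sg b ^ 2 = 1 := by cases b <;> simp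
lemma sg_not (b : Bool) : sg (!b) = - sg b := by cases b <;> simp

/-- average over `{±1}^m` -/
noncomputable def Ex {m : ℕ} (f : (Fin m → Bool) → ℝ) : ℝ := (∑ v, f v) / 2 ^ m

/-- the Rademacher sum with coefficients `a` -/
noncomputable def lin {m : ℕ} (a : Fin m → ℝ) (v : Fin m → Bool) : ℝ := ∑ k, a k * sg (v k)

/-- Euclidean norm -/
noncomputable def nrm {m : ℕ} (a : Fin m → ℝ) : ℝ := Real.sqrt (∑ k, a k ^ 2)

lemma nrm_nonneg {m : ℕ} (a : Fin m → ℝ) : 0 ≤ nrm a := Real.sqrt_nonneg _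

lemma nrm_sq {m : ℕ} (a : Fin m → ℝ) : nrm a ^ 2 = ∑ k, a k ^ 2 :=
  Real.sq_sqrt (Finset.sum_nonneg fun _ _ => sq_nonneg _)

section Basic
variable {m : ℕ}

lemma Ex_mono {f g : (Fin m → Bool) → ℝ} (h : ∀ v, f v ≤ g v) : Ex f ≤ Ex g := by
  unfold Ex
  exact div_le_div_of_nonneg_right (Finset.sum_le_sum fun v _ => h v) (by positivity)

lemma Ex_const (c : ℝ) : Ex (fun _ : Fin m → Bool => c) = c := by
  unfold Ex
  simp [Finset.card_univ]

lemma Ex_add (f g : (Fin m → Bool) → ℝ) : Ex (fun v => f v + g v) = Ex f + Ex g := by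
  unfold Ex; rw [Finset.sum_add_distrib, add_div]

lemma Ex_sub (f g : (Fin m → Bool) → ℝ) : Ex (fun v => f v - g v) = Ex f - Ex g := by
  unfold Ex; rw [Finset.sum_sub_distrib, sub_div]

lemma Ex_mul (c : ℝ) (f : (Fin m → Bool) → ℝ) : Ex (fun v => c * f v) = c * Ex f := by
  unfold Ex; rw [← Finset.mul_sum, mul_div_assoc]

lemma Ex_sum {ι : Type*} (s : Finset ι) (f : ι → (Fin m → Bool) → ℝ) :
    Ex (fun v => ∑ i ∈ s, f i v) = ∑ i ∈ s, Ex (f i) := by
  unfold Ex; rw [Finset.sum_comm, Finset.sum_div]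

lemma Ex_nonneg {f : (Fin m → Bool) → ℝ} (h : ∀ v, 0 ≤ f v) : 0 ≤ Ex f := by
  have := Ex_mono (f := fun _ => (0 : ℝ)) h
  rwa [Ex_const] at this

lemma Ex_succ (f : (Fin (m + 1) → Bool) → ℝ) :
    Ex f = (Ex (fun v => f (Fin.cons true v)) + Ex (fun v => f (Fin.cons false v))) / 2 := by
  unfold Ex
  have h : ∑ v, f v = ∑ p : Bool × (Fin m → Bool), f (Fin.cons p.1 p.2) :=
    ((Fin.consEquiv (fun _ => Bool)).sum_comp f).symm
  rw [h, Fintype.sum_prod_type, Fintype.sum_bool]
  rw [pow_succ]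
  field_simp

lemma lin_cons (a : Fin (m + 1) → ℝ) (b : Bool) (v : Fin m → Bool) :
    lin a (Fin.cons b v) = a 0 * sg b + lin (fun k => a k.succ) v := by
  unfold lin
  rw [Fin.sum_univ_succ]
  simp

end Basic

lemma Ex_sq_aux : ∀ (m : ℕ) (a : Fin m → ℝ) (x : ℝ),
    Ex (fun v => (x + lin a v) ^ 2) = x ^ 2 + ∑ k, a k ^ 2
  | 0, a, x => by
      simp [Ex, lin]
  | m + 1, a, x => by
      rw [Ex_succ]
      have h1 := Ex_sq_aux m (fun k => a k.succ) (x + a 0)
      have h2 := Ex_sq_aux m (fun k => a k.succ) (x - a 0)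
      have e1 : Ex (fun v => (x + lin a (Fin.cons true v)) ^ 2)
          = Ex (fun v => (x + a 0 + lin (fun k => a k.succ) v) ^ 2) := by
        congr 1; funext v; rw [lin_cons, sg_true]; ring
      have e2 : Ex (fun v => (x + lin a (Fin.cons false v)) ^ 2)
          = Ex (fun v => (x - a 0 + lin (fun k => a k.succ) v) ^ 2) := by
        congr 1; funext v; rw [lin_cons, sg_false]; ring
      rw [e1, e2, h1, h2, Fin.sum_univ_succ]
      ring

lemma Ex_sq {m : ℕ} (a : Fin m → ℝ) : Ex (fun v => lin a v ^ 2) = nrm a ^ 2 := by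
  have h := Ex_sq_aux m a 0
  rw [nrm_sq]
  simpa using h

lemma Ex_four_aux : ∀ (m : ℕ) (a : Fin m → ℝ) (x : ℝ),
    Ex (fun v => (x + lin a v) ^ 4)
      ≤ x ^ 4 + 6 * x ^ 2 * (∑ k, a k ^ 2) + 3 * (∑ k, a k ^ 2) ^ 2
  | 0, a, x => by
      simp [Ex, lin]
  | m + 1, a, x => by
      rw [Ex_succ]
      have h1 := Ex_four_aux m (fun k => a k.succ) (x + a 0)
      have h2 := Ex_four_aux m (fun k => a k.succ) (x - a 0)
      have e1 : Ex (fun v => (x + lin a (Fin.cons true v)) ^ 4)
          = Ex (fun v => (x + a 0 + lin (fun k => a k.succ) v) ^ 4) := by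
        congr 1; funext v; rw [lin_cons, sg_true]; ring
      have e2 : Ex (fun v => (x + lin a (Fin.cons false v)) ^ 4)
          = Ex (fun v => (x - a 0 + lin (fun k => a k.succ) v) ^ 4) := by
        congr 1; funext v; rw [lin_cons, sg_false]; ring
      rw [e1, e2, Fin.sum_univ_succ]
      set s := ∑ k : Fin m, a k.succ ^ 2 with hs
      have hs0 : 0 ≤ s := Finset.sum_nonneg fun _ _ => sq_nonneg _
      have h4 : 0 ≤ a 0 ^ 4 := by positivity
      nlinarith [h1, h2, h4]

lemma Ex_four {m : ℕ} (a : Fin m → ℝ) : Ex (fun v => lin a v ^ 4) ≤ 3 * nrm a ^ 4 := by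
  have h := Ex_four_aux m a 0
  have e : nrm a ^ 4 = (∑ k, a k ^ 2) ^ 2 := by
    rw [← nrm_sq]; ring
  rw [e]
  have h' : Ex (fun v => (0 + lin a v) ^ 4) = Ex (fun v => lin a v ^ 4) := by simp
  rw [h'] at h
  linarith

/-- elementary Khintchine inequality -/
theorem half_nrm_le {m : ℕ} (a : Fin m → ℝ) : nrm a / 2 ≤ Ex (fun v => |lin a v|) := by
  rcases (nrm_nonneg a).eq_or_lt with h0 | h0
  · rw [← h0]
    simpa using Ex_nonneg (f := fun v => |lin a v|) fun v => abs_nonneg _
  have hp : ∀ v, (9 / 10 / nrm a) * lin a v ^ 2 - (2 / 15 / nrm a ^ 3) * lin a v ^ 4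
      ≤ |lin a v| := by
    intro v
    set y := |lin a v| / nrm a with hy
    have hy0 : 0 ≤ y := by positivity
    have hx : |lin a v| = y * nrm a := by rw [hy]; field_simp
    have h2 : lin a v ^ 2 = (y * nrm a) ^ 2 := by rw [← hx, sq_abs]
    have h4 : lin a v ^ 4 = (y * nrm a) ^ 4 := by
      rw [show lin a v ^ 4 = (lin a v ^ 2) ^ 2 by ring, h2]; ring
    rw [h2, h4, hx]
    have e : (9 / 10 / nrm a) * (y * nrm a) ^ 2 - (2 / 15 / nrm a ^ 3) * (y * nrm a) ^ 4
        = nrm a * (y * (9 / 10 * y - 2 / 15 * y ^ 3)) := by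
      field_simp
    rw [e]
    have h1 : 9 / 10 * y - 2 / 15 * y ^ 3 ≤ 1 := by
      nlinarith [mul_nonneg hy0 (sq_nonneg (y - 3 / 2)), sq_nonneg (y - 3 / 2)]
    nlinarith [mul_le_mul_of_nonneg_left h1 hy0, mul_pos h0 h0]
  have h := Ex_mono hp
  rw [Ex_sub, Ex_mul, Ex_mul, Ex_sq] at h
  have h4 := Ex_four a
  have h5 : 2 / 15 / nrm a ^ 3 * Ex (fun v => lin a v ^ 4) ≤ 2 / 15 / nrm a ^ 3 * (3 * nrm a ^ 4) :=
    mul_le_mul_of_nonneg_left h4 (by positivity)
  have e1 : 2 / 15 / nrm a ^ 3 * (3 * nrm a ^ 4) = 2 / 5 * nrm a := by field_simp; ring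
  have e2 : 9 / 10 / nrm a * nrm a ^ 2 = 9 / 10 * nrm a := by field_simp
  rw [e1] at h5
  rw [e2] at h
  linarith

/-- flipping the coordinates in `J` -/
def flip {m : ℕ} (J : Finset (Fin m)) (v : Fin m → Bool) : Fin m → Bool :=
  fun k => if k ∈ J then !(v k) else v k

lemma flip_flip {m : ℕ} (J : Finset (Fin m)) (v : Fin m → Bool) : flip J (flip J v) = v := by
  funext k; unfold flip; by_cases h : k ∈ J <;> simp [h]

lemma Ex_flip {m : ℕ} (J : Finset (Fin m)) (f : (Fin m → Bool) → ℝ) :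
    Ex (fun v => f (flip J v)) = Ex f := by
  unfold Ex
  congr 1
  exact Equiv.sum_comp (⟨flip J, flip J, flip_flip J, flip_flip J⟩ : Equiv.Perm (Fin m → Bool)) f

/-- dropping coordinates does not increase the first absolute moment -/
theorem Ex_restrict {m : ℕ} (a : Fin m → ℝ) (I : Finset (Fin m)) :
    Ex (fun v => |lin (fun k => if k ∈ I then a k else 0) v|) ≤ Ex (fun v => |lin a v|) := by
  have h1 : Ex (fun v => |lin a v|) = Ex (fun v => (|lin a v| + |lin a (flip Iᶜ v)|) / 2) := by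
    have h := Ex_flip Iᶜ (fun v => |lin a v|)
    have e : (fun v => (|lin a v| + |lin a (flip Iᶜ v)|) / 2)
        = fun v => (1 / 2 : ℝ) * (|lin a v| + |lin a (flip Iᶜ v)|) := by
      funext v; ring
    rw [e, Ex_mul, Ex_add, h]; ring
  rw [h1]
  apply Ex_mono
  intro v
  have e : 2 * lin (fun k => if k ∈ I then a k else 0) v = lin a v + lin a (flip Iᶜ v) := by
    unfold lin
    rw [Finset.mul_sum, ← Finset.sum_add_distrib]
    apply Finset.sum_congr rfl
    intro k _
    by_cases h : k ∈ I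
    · simp [flip, h]; ring
    · simp only [h, if_false, flip, Finset.mem_compl, not_false_eq_true, if_true, sg_not]; ring
  have := abs_add_le (lin a v) (lin a (flip Iᶜ v))
  rw [← e, abs_mul, abs_two] at this
  linarith

/-- a sign chosen to agree with the sum is positively correlated with each summand -/
noncomputable def cho {m : ℕ} (a : Fin m → ℝ) (v : Fin m → Bool) : Bool := decide (0 ≤ lin a v)

lemma sg_cho_mul {m : ℕ} (a : Fin m → ℝ) (v : Fin m → Bool) :
    sg (cho a v) * lin a v = |lin a v| := by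
  unfold cho
  by_cases h : 0 ≤ lin a v
  · simp [h, abs_of_nonneg h]
  · simp only [h, decide_false, sg_false]
    rw [abs_of_neg (not_le.1 h)]; ring

theorem cho_corr {m : ℕ} (a : Fin m → ℝ) (k : Fin m) (ha : 0 ≤ a k) :
    0 ≤ Ex (fun v => sg (cho a v) * sg (v k)) := by
  have h1 : Ex (fun v => sg (cho a v) * sg (v k))
      = Ex (fun v => (sg (cho a v) * sg (v k)
        + sg (cho a (flip {k} v)) * sg (flip {k} v k)) / 2) := by
    have h := Ex_flip {k} (fun v => sg (cho a v) * sg (v k))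
    have e : (fun v => (sg (cho a v) * sg (v k)
        + sg (cho a (flip {k} v)) * sg (flip {k} v k)) / 2)
        = fun v => (1 / 2 : ℝ) * (sg (cho a v) * sg (v k)
        + sg (cho a (flip {k} v)) * sg (flip {k} v k)) := by
      funext v; ring
    rw [e, Ex_mul, Ex_add, h]; ring
  rw [h1]
  apply Ex_nonneg
  intro v
  have e1 : flip {k} v k = !(v k) := by simp [flip]
  have e2 : lin a (flip {k} v) = lin a v - 2 * (a k * sg (v k)) := by
    unfold lin
    have : ∀ j, a j * sg (flip {k} v j) = a j * sg (v j) - (if j = k then 2 * (a k * sg (v k)) else 0) := by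
      intro j
      by_cases hj : j = k
      · subst hj; simp only [e1, sg_not, if_true]; ring
      · simp [flip, hj]
    rw [Finset.sum_congr rfl fun j _ => this j, Finset.sum_sub_distrib]
    simp
  rw [e1, sg_not]
  unfold cho
  rw [e2]
  have h3 : ∀ p q : Prop, ∀ [Decidable p] [Decidable q], (p → q) → sg (decide p) ≤ sg (decide q) := by
    intro p q _ _ hpq
    by_cases hp : p
    · simp [hp, hpq hp]
    · by_cases hq : q <;> simp [hp, hq]
  cases hb : v k
  · have h := h3 (0 ≤ lin a v) (0 ≤ lin a v - 2 * (a k * sg false)) (by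
      intro h; simp only [sg_false]; linarith)
    simp only [sg_false] at h ⊢
    linarith
  · have h := h3 (0 ≤ lin a v - 2 * (a k * sg true)) (0 ≤ lin a v) (by
      intro h; simp only [sg_true] at h; linarith)
    simp only [sg_true] at h ⊢
    linarith

end Pool.Agent.PC55
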