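import Pool.Agent.PC55.Sched

/-!
Estimates for the explicit barrier at the two ends.
-/

set_option autoImplicit false
open Real

namespace Pool.Agent.PC55

/-- the constant in the bulk -/
noncomputable def qq : ℝ := 7870 / 5001

lemma qq_pos : 0 < qq := by unfold qq; norm_num

section
variable {N w x : ℝ}

lemma OM_zero_ge (hN : 20 ≤ N) :
    N * (249 / 80) * Real.log (7 / 10) - 5 ≤ OM N (qq / N) (√2) (√3) := by
  have hN0 : 0 < N := by linarith
  have h3 : (0 : ℝ) < √3 := Real.sqrt_pos.2 (by norm_num)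
  have h3a : √3 ≤ 18 / 10 := by
    rw [Real.sqrt_le_left (by norm_num)]; norm_num
  have h3b : (17 : ℝ) / 10 ≤ √3 := Real.le_sqrt_of_sq_le (by norm_num)
  have h2 : (0 : ℝ) < √2 := Real.sqrt_pos.2 (by norm_num)
  have hl1 : Real.log (7 / 10) ≤ Real.log (7 / 10 + 2 / 5 * √2 / N) :=
    Real.log_le_log (by norm_num) (by
      have : 0 ≤ 2 / 5 * √2 / N := by positivity
      linarith)
  have hl2 : Real.log (7 / 10) ≤ Real.log (7 / 10 + 4 / 5 * √3 / N) :=
    Real.log_le_log (by norm_num) (by
      have : 0 ≤ 4 / 5 * √3 / N := by positivity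
      linarith)
  have hell : 0 ≤ ell N (qq / N) (√3) := by
    unfold ell
    have h5 : Real.exp 1 ≤ (7 / 10 / √3 + 4 / 5 / N) / (qq / N) := by
      rw [le_div_iff₀ (div_pos qq_pos hN0)]
      have h6 : Real.exp 1 < 2.7182818286 := Real.exp_one_lt_d9
      have h7 : 7 / 18 ≤ 7 / 10 / √3 := by
        rw [le_div_iff₀ h3]; linarith
      have h8 : Real.exp 1 * (qq / N) ≤ 3 * (qq / N) :=
        mul_le_mul_of_nonneg_right (by linarith) (div_pos qq_pos hN0).le
      have h9 : qq / N ≤ 1 / 10 := by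
        rw [div_le_iff₀ hN0]; unfold qq; linarith
      have h10 : 0 ≤ 4 / 5 / N := by positivity
      linarith
    have := Real.log_le_log (Real.exp_pos 1) h5
    rw [Real.log_exp] at this
    linarith
  have hK := KK_pos hN0 h3
  have h6 : 0 ≤ 2 * KK N (√3) * ell N (qq / N) (√3) := by positivity
  have h7 : 8 / √3 ≤ 5 := by
    rw [div_le_iff₀ h3]; linarith
  have h8 := mul_le_mul_of_nonneg_left hl1 (show 0 ≤ N * (5 / 2) by positivity)
  have h9 := mul_le_mul_of_nonneg_left hl2 (show 0 ≤ N * (49 / 80) by positivity)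
  unfold OM PP TH
  have h10 : (0 : ℝ) ≤ 7 / 10 * √3 := by positivity
  linarith

lemma OM_end_le (hN : 100 ≤ N) (hw0 : 0 < w) (hx0 : 0 < x) (hw : w ^ 2 = N ^ 2 + 2)
    (hx : x ^ 2 = N ^ 2 + 3) :
    OM N (qq / N) w x ≤ N * (5 / 2 * Real.log (11004 / 10000)
      + 11 / 5 * (Real.log (15 / 10 / qq) - 1) + 7007 / 10000
      + 49 / 80 * Real.log (15008 / 10000)) := by
  have hN0 : 0 < N := by linarith
  have hxN : x ≤ 1001 / 1000 * N := by
    by_contra hc
    push Not at hc
    nlinarith
  have hNx : N ≤ x := by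
    by_contra hc
    push Not at hc
    nlinarith
  have hwN : w ≤ 1001 / 1000 * N := by
    by_contra hc
    push Not at hc
    nlinarith
  have hl1 : Real.log (7 / 10 + 2 / 5 * w / N) ≤ Real.log (11004 / 10000) := by
    apply Real.log_le_log (by positivity)
    have : 2 / 5 * w / N ≤ 4004 / 10000 := by
      rw [div_le_iff₀ hN0]; linarith
    linarith
  have hl2 : Real.log (7 / 10 + 4 / 5 * x / N) ≤ Real.log (15008 / 10000) := by
    apply Real.log_le_log (by positivity)
    have : 4 / 5 * x / N ≤ 8008 / 10000 := by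
      rw [div_le_iff₀ hN0]; linarith
    linarith
  have hell : ell N (qq / N) x ≤ Real.log (15 / 10 / qq) - 1 := by
    unfold ell
    have : Real.log ((7 / 10 / x + 4 / 5 / N) / (qq / N)) ≤ Real.log (15 / 10 / qq) := by
      apply Real.log_le_log (div_pos (by positivity) (div_pos qq_pos hN0))
      have e : 15 / 10 / qq = (7 / 10 / N + 4 / 5 / N) / (qq / N) := by
        have := qq_pos.ne'
        field_simp; norm_num
      rw [e]
      apply div_le_div_of_nonneg_right _ (div_pos qq_pos hN0).le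
      have : 7 / 10 / x ≤ 7 / 10 / N := div_le_div_of_nonneg_left (by norm_num) hN0 hNx
      linarith
    linarith
  have hneg : Real.log (15 / 10 / qq) - 1 ≤ 0 := by
    have : Real.log (15 / 10 / qq) ≤ 0 := Real.log_nonpos (by unfold qq; norm_num)
      (by unfold qq; norm_num)
    linarith
  have hKK : 11 / 10 * N ≤ KK N x := by
    unfold KK
    have : 2 / 5 * N ≤ 2 / 5 * x ^ 2 / N := by
      rw [le_div_iff₀ hN0]; nlinarith
    linarith
  have h6 : 2 * KK N x * ell N (qq / N) x ≤ 2 * (11 / 10 * N) * (Real.log (15 / 10 / qq) - 1) := by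
    have hKp := KK_pos hN0 hx0
    calc 2 * KK N x * ell N (qq / N) x ≤ 2 * KK N x * (Real.log (15 / 10 / qq) - 1) :=
          mul_le_mul_of_nonneg_left hell (by positivity)
      _ ≤ 2 * (11 / 10 * N) * (Real.log (15 / 10 / qq) - 1) :=
          mul_le_mul_of_nonpos_right (by linarith) hneg
  have h8 := mul_le_mul_of_nonneg_left hl1 (show 0 ≤ N * (5 / 2) by positivity)
  have h9 := mul_le_mul_of_nonneg_left hl2 (show 0 ≤ N * (49 / 80) by positivity)
  have h10 : 0 ≤ 8 / x := by positivity
  unfold OM PP TH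
  linarith

lemma log_a : Real.log (1572 / 1000) ≤ 4526 / 10000 := by
  rw [Real.log_le_iff_le_exp (by norm_num)]
  refine le_trans ?_ (Real.sum_le_exp_of_nonneg (by norm_num) 7)
  simp only [Finset.sum_range_succ, Finset.sum_range_zero, Nat.factorial]
  norm_num

lemma log_b : Real.log (2144 / 1000) ≤ 7630 / 10000 := by
  rw [Real.log_le_iff_le_exp (by norm_num)]
  refine le_trans ?_ (Real.sum_le_exp_of_nonneg (by norm_num) 9)
  simp only [Finset.sum_range_succ, Finset.sum_range_zero, Nat.factorial]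
  norm_num

/-- the numerical heart: the barrier decreases -/
theorem drift_numeric :
    5 / 2 * Real.log (11004 / 10000) + 11 / 5 * (Real.log (15 / 10 / qq) - 1) + 7007 / 10000
      + 49 / 80 * Real.log (15008 / 10000) - 249 / 80 * Real.log (7 / 10) ≤ -(3 / 1000) := by
  have h1 : Real.log (11004 / 10000) = Real.log (1572 / 1000) + Real.log (7 / 10) := by
    rw [← Real.log_mul (by norm_num) (by norm_num)]; norm_num
  have h2 : Real.log (15008 / 10000) = Real.log (2144 / 1000) + Real.log (7 / 10) := by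
    rw [← Real.log_mul (by norm_num) (by norm_num)]; norm_num
  have h3 : Real.log (15 / 10 / qq) ≤ 15 / 10 / qq - 1 :=
    Real.log_le_sub_one_of_pos (div_pos (by norm_num) qq_pos)
  have h4 : 15 / 10 / qq ≤ 9532 / 10000 := by unfold qq; norm_num
  have h5 := log_a
  have h6 := log_b
  rw [h1, h2]
  linarith

/-- the total drift -/
theorem drift_total (hN : 100 ≤ N) (hw0 : 0 < w) (hx0 : 0 < x) (hw : w ^ 2 = N ^ 2 + 2)
    (hx : x ^ 2 = N ^ 2 + 3) :
    OM N (qq / N) w x - OM N (qq / N) (√2) (√3) ≤ -(3 / 1000) * N + 5 := by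
  have h1 := OM_zero_ge (N := N) (by linarith)
  have h2 := OM_end_le hN hw0 hx0 hw hx
  have h3 := mul_le_mul_of_nonneg_left drift_numeric (show 0 ≤ N by linarith)
  linarith

/-- a crude upper bound in the bulk -/
theorem OM_crude {a : ℝ} (hN : 100 ≤ N) (ha0 : 0 < a) (hw0 : 0 < w) (hx0 : 0 < x)
    (hwx : w ≤ x) (hax : a * N ≤ x) (hx2 : x ≤ 2 * N) :
    OM N (qq / N) w x - OM N (qq / N) (√2) (√3) ≤ (42 / 10 / a + 10) * N := by
  have hN0 : 0 < N := by linarith
  have h1 := OM_zero_ge (N := N) (by linarith)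
  have hl0 : -(3 / 7) ≤ Real.log (7 / 10) := by
    have := Real.one_sub_inv_le_log_of_pos (show (0 : ℝ) < 7 / 10 by norm_num)
    norm_num at this ⊢
    linarith
  have hl1 : Real.log (7 / 10 + 2 / 5 * w / N) ≤ 1 / 2 := by
    have h : 2 / 5 * w / N ≤ 8 / 10 := by
      rw [div_le_iff₀ hN0]; linarith
    have := Real.log_le_sub_one_of_pos (show 0 < 7 / 10 + 2 / 5 * w / N by positivity)
    linarith
  have hl2 : Real.log (7 / 10 + 4 / 5 * x / N) ≤ 13 / 10 := by
    have h : 4 / 5 * x / N ≤ 16 / 10 := by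
      rw [div_le_iff₀ hN0]; linarith
    have := Real.log_le_sub_one_of_pos (show 0 < 7 / 10 + 4 / 5 * x / N by positivity)
    linarith
  have hK0 := KK_pos hN0 hx0
  have hK : KK N x ≤ 3 * N := by
    unfold KK
    have : 2 / 5 * x ^ 2 / N ≤ 16 / 10 * N := by
      rw [div_le_iff₀ hN0]; nlinarith
    linarith
  have hell : ell N (qq / N) x ≤ 7 / 10 / a + 4 / 5 := by
    unfold ell
    have h2 : (7 / 10 / x + 4 / 5 / N) / (qq / N) ≤ 7 / 10 / a + 4 / 5 := by
      have h3 : 7 / 10 / x ≤ 7 / 10 / (a * N) :=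
        div_le_div_of_nonneg_left (by norm_num) (by positivity) hax
      have e : (7 / 10 / a + 4 / 5) = (7 / 10 / (a * N) + 4 / 5 / N) / (1 / N) := by
        field_simp
      rw [e]
      apply div_le_div₀ (by positivity) (by linarith) (by positivity)
      apply div_le_div_of_nonneg_right _ hN0.le
      unfold qq; norm_num
    have := Real.log_le_sub_one_of_pos (show 0 < (7 / 10 / x + 4 / 5 / N) / (qq / N) from
      div_pos (by positivity) (div_pos qq_pos hN0))
    linarith
  have h6 : 2 * KK N x * ell N (qq / N) x ≤ 2 * (3 * N) * (7 / 10 / a + 4 / 5) := by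
    calc 2 * KK N x * ell N (qq / N) x ≤ 2 * KK N x * (7 / 10 / a + 4 / 5) :=
          mul_le_mul_of_nonneg_left hell (by positivity)
      _ ≤ 2 * (3 * N) * (7 / 10 / a + 4 / 5) :=
          mul_le_mul_of_nonneg_right (by linarith) (by positivity)
  have e6 : 2 * (3 * N) * (7 / 10 / a + 4 / 5) = (42 / 10 / a) * N + 48 / 10 * N := by
    field_simp; ring
  have h8 := mul_le_mul_of_nonneg_left hl1 (show 0 ≤ N * (5 / 2) by positivity)
  have h9 := mul_le_mul_of_nonneg_left hl2 (show 0 ≤ N * (49 / 80) by positivity)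
  have h11 := mul_le_mul_of_nonneg_left hl0 (show 0 ≤ N * (249 / 80) by positivity)
  have h10 : 0 ≤ 8 / x := by positivity
  have hU : OM N (qq / N) w x ≤ N * (5 / 2) * (1 / 2) + ((42 / 10 / a) * N + 48 / 10 * N)
      + 7 / 10 * x + N * (49 / 80) * (13 / 10) := by
    unfold OM PP TH
    linarith
  linarith

end

end Pool.Agent.PC55
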