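import Pool.Agent.PC55.Engine
import Pool.Agent.PC55.Est

/-!
The explicit schedule put into the engine.
-/

set_option autoImplicit false
open Finset Real

namespace Pool.Agent.PC55

noncomputable def sK (N : ℝ) (R : ℕ) : ℝ := KK N (√((R : ℝ) + 3))

noncomputable def sU (N : ℝ) (R : ℕ) : ℝ := OM N (qq / N) (√((R : ℝ) + 2)) (√((R : ℝ) + 3))

noncomputable def sW (N lr L1 : ℝ) (R1 R : ℕ) : ℝ :=
  sK N 0 * L1 + (sU N R - sU N 0) + 2 * lr * (min (sK N R) (sK N R1) - sK N 0)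

section
variable {N : ℝ}

lemma sq2 (R : ℕ) : √((R : ℝ) + 2) ^ 2 = R + 2 := Real.sq_sqrt (by positivity)
lemma sq3 (R : ℕ) : √((R : ℝ) + 3) ^ 2 = R + 3 := Real.sq_sqrt (by positivity)
lemma sp2 (R : ℕ) : 0 < √((R : ℝ) + 2) := Real.sqrt_pos.2 (by positivity)
lemma sp3 (R : ℕ) : 0 < √((R : ℝ) + 3) := Real.sqrt_pos.2 (by positivity)

lemma shift (R : ℕ) : √(((R + 1 : ℕ) : ℝ) + 2) = √((R : ℝ) + 3) := by
  congr 1; push_cast; ring

lemma sK_pos (hN : 0 < N) (R : ℕ) : 0 < sK N R := KK_pos hN (sp3 R)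

lemma sK_lt (hN : 0 < N) (R : ℕ) : sK N R < sK N (R + 1) := by
  have h : √((R : ℝ) + 3) ^ 2 + 1 = √(((R + 1 : ℕ) : ℝ) + 3) ^ 2 := by
    rw [sq3, sq3]; push_cast; ring
  have := KK_diff_pos hN (sp3 R) (sp3 (R + 1)) h
  unfold sK
  linarith

lemma sK_mono (hN : 0 < N) : Monotone (sK N) :=
  monotone_nat_of_le_succ fun R => (sK_lt hN R).le

lemma sU_step (hN : 0 < N) (R : ℕ) (hR : (R : ℝ) + 3 ≤ 2 * N ^ 2) :
    sK N R * (Real.cosh (1 / sK N R) - 1)
      + 2 * (sK N (R + 1) - sK N R) * (Real.log (2 * (sK N (R + 1) - sK N R) / (qq / N)) - 1)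
      ≤ sU N (R + 1) - sU N R := by
  have h1 : √((R : ℝ) + 2) ^ 2 + 1 = √((R : ℝ) + 3) ^ 2 := by
    rw [sq3, sq2]; ring
  have h2 : √((R : ℝ) + 3) ^ 2 + 1 = √(((R + 1 : ℕ) : ℝ) + 3) ^ 2 := by
    rw [sq3, sq3]; push_cast; ring
  have h := OM_step hN (div_pos qq_pos hN) (sp2 R) (sp3 R) (sp3 (R + 1)) h1 h2
    (by rw [sq3]; linarith [Nat.cast_nonneg (α := ℝ) R]) (by rw [sq3]; exact hR)
  unfold sK sU
  rw [shift]
  exact h

lemma step_bulk (hN : 0 < N) (lr L1 : ℝ) (R1 R : ℕ) (hR1 : R1 ≤ R) (hR : (R : ℝ) + 3 ≤ 2 * N ^ 2) :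
    sK N R * (Real.cosh (1 / sK N R) - 1)
      + 2 * (sK N (R + 1) - sK N R) * (Real.log (2 * (sK N (R + 1) - sK N R) / (qq / N)) - 1)
      ≤ sW N lr L1 R1 (R + 1) - sW N lr L1 R1 R := by
  have h := sU_step hN R hR
  have e1 : min (sK N (R + 1)) (sK N R1) = sK N R1 := min_eq_right (sK_mono hN (by omega))
  have e2 : min (sK N R) (sK N R1) = sK N R1 := min_eq_right (sK_mono hN hR1)
  unfold sW
  rw [e1, e2]
  linarith

lemma step_final (hN : 0 < N) (lr L1 : ℝ) (R1 R : ℕ) (hR1 : R < R1)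
    (hR : (R : ℝ) + 3 ≤ 2 * N ^ 2) :
    sK N R * (Real.cosh (1 / sK N R) - 1)
      + 2 * (sK N (R + 1) - sK N R)
        * (Real.log (2 * (sK N (R + 1) - sK N R) / (qq / N / Real.exp lr)) - 1)
      ≤ sW N lr L1 R1 (R + 1) - sW N lr L1 R1 R := by
  have h := sU_step hN R hR
  have e1 : min (sK N (R + 1)) (sK N R1) = sK N (R + 1) := min_eq_left (sK_mono hN (by omega))
  have e2 : min (sK N R) (sK N R1) = sK N R := min_eq_left (sK_mono hN hR1.le)
  have hd : 0 < sK N (R + 1) - sK N R := by linarith [sK_lt hN R]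
  have e3 : Real.log (2 * (sK N (R + 1) - sK N R) / (qq / N / Real.exp lr))
      = Real.log (2 * (sK N (R + 1) - sK N R) / (qq / N)) + lr := by
    have hq := qq_pos
    have : 2 * (sK N (R + 1) - sK N R) / (qq / N / Real.exp lr)
        = 2 * (sK N (R + 1) - sK N R) / (qq / N) * Real.exp lr := by
      field_simp
    rw [this, Real.log_mul (div_pos (by positivity) (div_pos hq hN)).ne' (Real.exp_pos _).ne',
      Real.log_exp]
  unfold sW
  rw [e1, e2, e3]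
  linarith

lemma sK_zero_le (hN : 100 ≤ N) : sK N 0 ≤ 13 / 10 := by
  have h3a : √(((0 : ℕ) : ℝ) + 3) ≤ 18 / 10 := by
    rw [Real.sqrt_le_left (by norm_num)]; norm_num
  have hsq := sq3 0
  unfold sK KK
  rw [hsq]
  have : 2 / 5 * (((0 : ℕ) : ℝ) + 3) / N ≤ 12 / 1000 := by
    rw [div_le_iff₀ (by linarith)]; push_cast; linarith
  linarith

lemma sK_lower (hN : 0 < N) {a : ℝ} (ha : 0 < a) (R : ℕ) (hR : a ^ 2 * N ^ 2 ≤ R) :
    7 / 10 * (a * N) ≤ sK N R := by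
  have h1 : a * N ≤ √((R : ℝ) + 3) := by
    apply Real.le_sqrt_of_sq_le
    rw [mul_pow]; linarith
  unfold sK KK
  have : 0 ≤ 2 / 5 * √((R : ℝ) + 3) ^ 2 / N := by positivity
  linarith

lemma sK_R1_le (hN : 0 < N) {a : ℝ} (ha : 0 < a) (ha1 : a ≤ 1) (R : ℕ)
    (hR : (R : ℝ) + 3 ≤ 2 * a ^ 2 * N ^ 2) : sK N R ≤ 18 / 10 * a * N := by
  have h1 : √((R : ℝ) + 3) ≤ 142 / 100 * (a * N) := by
    rw [Real.sqrt_le_left (by positivity)]
    nlinarith [sq_nonneg (a * N)]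
  have hsq := sq3 R
  unfold sK KK
  rw [hsq]
  have : 2 / 5 * ((R : ℝ) + 3) / N ≤ 8 / 10 * a * N := by
    rw [div_le_iff₀ hN]
    have h2 : a ^ 2 ≤ a := by nlinarith
    have h3 : a ^ 2 * N ^ 2 ≤ a * N ^ 2 := mul_le_mul_of_nonneg_right h2 (by positivity)
    nlinarith
  nlinarith [mul_pos ha hN]

lemma sK_end_le (hN : 100 ≤ N) (n : ℕ) (hn : (n : ℝ) = N ^ 2) : sK N n ≤ 12 / 10 * N := by
  have hN0 : 0 < N := by linarith
  have h1 : √((n : ℝ) + 3) ≤ 1001 / 1000 * N := by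
    rw [Real.sqrt_le_left (by positivity), hn]
    nlinarith
  have hsq := sq3 n
  unfold sK KK
  rw [hsq, hn]
  have : 2 / 5 * (N ^ 2 + 3) / N ≤ 401 / 1000 * N := by
    rw [div_le_iff₀ hN0]; nlinarith
  rw [hn] at h1
  linarith

/-- the potential at the beginning is small -/
lemma sW_end_le (hN : 5000 ≤ N) (n R1 : ℕ) (hn : (n : ℝ) = N ^ 2) {lr L1 a : ℝ} (hlr : 0 ≤ lr)
    (hL1 : 0 ≤ L1) (hL1' : 13 / 10 * L1 ≤ N / 2000)
    (ha : 0 < a) (ha1 : a ≤ 1) (halr : 36 / 10 * lr * a ≤ 1 / 2000)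
    (hR1 : (R1 : ℝ) + 3 ≤ 2 * a ^ 2 * N ^ 2) :
    sW N lr L1 R1 n ≤ -(N / 1000) := by
  have hN0 : 0 < N := by linarith
  have h1 : sU N n - sU N 0 ≤ -(3 / 1000) * N + 5 := by
    have := drift_total (N := N) (w := √((n : ℝ) + 2)) (x := √((n : ℝ) + 3)) (by linarith)
      (sp2 n) (sp3 n) (by rw [sq2, hn]) (by rw [sq3, hn])
    unfold sU
    have e0 : ((0 : ℕ) : ℝ) + 2 = 2 := by norm_num
    have e1 : ((0 : ℕ) : ℝ) + 3 = 3 := by norm_num
    rw [e0, e1]
    exact this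
  have h2 := sK_R1_le hN0 ha ha1 R1 hR1
  have h3 := sK_zero_le (N := N) (by linarith)
  have h4 : sK N 0 * L1 ≤ N / 2000 := by nlinarith
  have h5 : min (sK N n) (sK N R1) ≤ 18 / 10 * a * N := (min_le_right _ _).trans h2
  have h6 := sK_pos hN0 0
  have h7 : 2 * lr * (min (sK N n) (sK N R1) - sK N 0) ≤ N / 2000 := by
    have h8 : 2 * lr * (min (sK N n) (sK N R1) - sK N 0) ≤ 2 * lr * (18 / 10 * a * N) :=
      mul_le_mul_of_nonneg_left (by linarith) (by positivity)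
    have h9 : 2 * lr * (18 / 10 * a * N) = (36 / 10 * lr * a) * N := by ring
    have h10 := mul_le_mul_of_nonneg_right halr hN0.le
    linarith
  unfold sW
  linarith

/-- the barrier in the bulk -/
lemma sW_bulk_le (hN : 5000 ≤ N) (n R1 R : ℕ) (hn : (n : ℝ) = N ^ 2) {lr L1 a : ℝ} (hlr : 0 ≤ lr)
    (hL1 : 0 ≤ L1) (hL1' : 13 / 10 * L1 ≤ N / 2000)
    (ha : 0 < a) (ha1 : a ≤ 1) (halr : 36 / 10 * lr * a ≤ 1 / 2000)
    (hR1 : (R1 : ℝ) + 3 ≤ 2 * a ^ 2 * N ^ 2) (hR : a ^ 2 * N ^ 2 ≤ R) (hRn : R ≤ n) :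
    sW N lr L1 R1 R ≤ (42 / 10 / a + 11) * N := by
  have hN0 : 0 < N := by linarith
  have hRn' : (R : ℝ) ≤ n := by exact_mod_cast hRn
  have h1 : sU N R - sU N 0 ≤ (42 / 10 / a + 10) * N := by
    have := OM_crude (N := N) (w := √((R : ℝ) + 2)) (x := √((R : ℝ) + 3)) (a := a) (by linarith) ha
      (sp2 R) (sp3 R) (Real.sqrt_le_sqrt (by linarith))
      (by apply Real.le_sqrt_of_sq_le; rw [mul_pow]; linarith)
      (by rw [Real.sqrt_le_left (by positivity)]; nlinarith)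
    unfold sU
    have e0 : ((0 : ℕ) : ℝ) + 2 = 2 := by norm_num
    have e1 : ((0 : ℕ) : ℝ) + 3 = 3 := by norm_num
    rw [e0, e1]
    exact this
  have h2 := sK_R1_le hN0 ha ha1 R1 hR1
  have h3 := sK_zero_le (N := N) (by linarith)
  have h4 : sK N 0 * L1 ≤ N / 2000 := by nlinarith
  have h5 : min (sK N R) (sK N R1) ≤ 18 / 10 * a * N := (min_le_right _ _).trans h2
  have h6 := sK_pos hN0 0
  have h7 : 2 * lr * (min (sK N R) (sK N R1) - sK N 0) ≤ N / 2000 := by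
    have h8 : 2 * lr * (min (sK N R) (sK N R1) - sK N 0) ≤ 2 * lr * (18 / 10 * a * N) :=
      mul_le_mul_of_nonneg_left (by linarith) (by positivity)
    have h9 : 2 * lr * (18 / 10 * a * N) = (36 / 10 * lr * a) * N := by ring
    have h10 := mul_le_mul_of_nonneg_right halr hN0.le
    linarith
  unfold sW
  linarith

end

/-- the explicit bound for large `n` -/
theorem concrete {δ : ℝ} (hδ : 0 < δ)
    (hcomb : ∀ (m : ℕ) (a g : Fin m → ℝ), (∀ k, 0 ≤ a k) →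
      (∀ k, 0 ≤ g k) → (∀ k, g k ≤ δ) → ∑ k, g k ^ 2 ≤ 1 →
      787 / 1000 * ∑ k, g k * a k + 1 / 5000 * nrm a ≤ Ex (fun v => |lin a v|))
    {lam lr a : ℝ} (hlam : 1 ≤ lam) (hlr : lr = Real.log (1574 / 1000 * lam))
    (ha : 0 < a) (ha1 : a ≤ 1) (halr : 36 / 10 * lr * a ≤ 1 / 2000)
    (n m : ℕ) (N M0 β Cw : ℝ) (hN : 5000 ≤ N) (hn : (n : ℝ) = N ^ 2)
    (hM0 : M0 = (5001 / 10000 * N) ^ 2) (hm : (m : ℝ) ≤ M0)
    (hβ : β = 20 / 7 / a) (hCw : Cw = 42 / 10 / a + 11)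
    (hL1 : 13 / 10 * Real.log (lam ^ 2 * M0) ≤ N / 2000)
    (haN : 4 ≤ a * N) (hδM : 1 ≤ δ ^ 2 * M0) :
    Pb n (fun _ : Fin m => 0) ≤ 1 / lam ^ 2 + Real.exp (-(7 * a * N / 65000000))
      + Real.exp (β * Cw + β ^ 2 / 2) / (δ ^ 4 * M0) := by
  have hN0 : 0 < N := by linarith
  have hlr0 : 0 < lr := by
    rw [hlr]; exact Real.log_pos (by linarith)
  have hexp : Real.exp lr = 1574 / 1000 * lam := by
    rw [hlr, Real.exp_log (by linarith)]
  have hM0p : 0 < M0 := by rw [hM0]; positivity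
  have hM1 : 1 ≤ M0 := by rw [hM0]; nlinarith
  have hlam2 : 1 ≤ lam ^ 2 := by nlinarith
  have hsqM : √M0 = 5001 / 10000 * N := by
    rw [hM0]; exact Real.sqrt_sq (by positivity)
  have hsqM1 : √(lam ^ 2 * M0) = lam * (5001 / 10000 * N) := by
    rw [hM0, ← mul_pow]; exact Real.sqrt_sq (by positivity)
  have hL0 : 0 ≤ Real.log (lam ^ 2 * M0) := Real.log_nonneg (by nlinarith)
  set R1 := ⌈a ^ 2 * N ^ 2⌉₊ with hR1
  have hR1a : a ^ 2 * N ^ 2 ≤ R1 := Nat.le_ceil _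
  have hR1b : (R1 : ℝ) < a ^ 2 * N ^ 2 + 1 := Nat.ceil_lt_add_one (by positivity)
  have haN2 : 16 ≤ a ^ 2 * N ^ 2 := by nlinarith
  have hR1c : (R1 : ℝ) + 3 ≤ 2 * a ^ 2 * N ^ 2 := by linarith
  have hR1n : R1 ≤ n := by
    rw [hR1]
    apply Nat.ceil_le.2
    rw [hn]
    have : a ^ 2 ≤ 1 := by nlinarith
    nlinarith [sq_nonneg N]
  have hcast : ∀ R : ℕ, R < n → (R : ℝ) + 3 ≤ 2 * N ^ 2 := by
    intro R hR
    have h1 : (R : ℝ) + 1 ≤ n := by exact_mod_cast hR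
    nlinarith
  have hge : ∀ R : ℕ, R1 ≤ R → a ^ 2 * N ^ 2 ≤ R := fun R hR =>
    hR1a.trans (by exact_mod_cast hR)
  have hKlow : ∀ R : ℕ, R1 ≤ R → 7 / 10 * (a * N) ≤ sK N R := fun R hR =>
    sK_lower hN0 ha R (hge R hR)
  have hβ0 : 0 < β := by rw [hβ]; positivity
  set D := Real.exp (β * Cw) / (δ ^ 2 * M0) ^ 2 with hD
  have hD0 : 0 < D := by rw [hD]; positivity
  set θ := 7 / 10 * (a * N) / 5000 / M0 with hθ
  have hθ0 : 0 ≤ θ := by rw [hθ]; positivity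
  have hθM : θ * M0 = 7 / 10 * (a * N) / 5000 := by rw [hθ]; field_simp
  have key := engine hδ.le hcomb (m := m) n R1 hR1n (sK N)
    (sW N lr (Real.log (lam ^ 2 * M0)) R1)
    (M0 := M0) (M1 := lam ^ 2 * M0) (κ0 := qq / N) (κ1 := qq / N / Real.exp lr) (θ := θ)
    (D := D) (l := β / N)
    (sK_pos hN0) (sK_lt hN0) (div_pos qq_pos hN0) (by have := qq_pos; positivity) hM0p
    (by positivity)
    (by
      rw [hsqM1, hexp]
      have e : qq / N / (1574 / 1000 * lam) * (lam * (5001 / 10000 * N)) = 1 / 2 := by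
        unfold qq; field_simp; norm_num
      rw [e])
    (by
      rw [hsqM]
      unfold qq; field_simp; norm_num)
    (fun R hR => step_final hN0 lr _ R1 R hR (hcast R (by omega)))
    (fun R hR hRn => step_bulk hN0 lr _ R1 R hR (hcast R hRn))
    (by
      intro s hs
      have hs' : (s : ℝ) ≤ 0 := by exact_mod_cast hs.le
      have e : sW N lr (Real.log (lam ^ 2 * M0)) R1 0 = sK N 0 * Real.log (lam ^ 2 * M0) := by
        unfold sW
        rw [min_eq_left (sK_mono hN0 (Nat.zero_le _))]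
        ring
      unfold G
      rw [e]
      have h1 : Real.log (lam ^ 2 * M0) ≤ (sK N 0 * Real.log (lam ^ 2 * M0) - s) / sK N 0 := by
        rw [le_div_iff₀ (sK_pos hN0 0)]; linarith
      calc lam ^ 2 * M0 = Real.exp (Real.log (lam ^ 2 * M0)) :=
            (Real.exp_log (by positivity)).symm
        _ ≤ _ := Real.exp_le_exp.2 h1)
    (fun R hR => by have := hKlow R hR; linarith)
    hθ0
    (fun R hR => by rw [hθM]; have := hKlow R hR; linarith)
    hD0.le (by positivity)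
    (by
      intro R hR hRn s hs
      have hK' : 0 < sK N (R + 1) := sK_pos hN0 _
      have h1 := hKlow (R + 1) (by omega)
      have h2 := sW_bulk_le hN n R1 (R + 1) hn hlr0.le hL0 hL1 ha ha1 halr hR1c
        (hge (R + 1) (by omega)) (by omega)
      rw [← hCw] at h2
      have hLg : 0 ≤ Real.log (δ ^ 2 * M0) := Real.log_nonneg hδM
      have h3 : Real.log (δ ^ 2 * M0)
          < (sW N lr (Real.log (lam ^ 2 * M0)) R1 (R + 1) - s) / sK N (R + 1) := by
        have := Real.log_lt_log (by positivity) hs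
        unfold G at this
        rwa [Real.log_exp] at this
      rw [lt_div_iff₀ hK'] at h3
      have h4 : Real.log (δ ^ 2 * M0) * (7 / 10 * (a * N)) ≤ Real.log (δ ^ 2 * M0) * sK N (R + 1) :=
        mul_le_mul_of_nonneg_left h1 hLg
      have h5 : (s : ℝ) ≤ Cw * N - Real.log (δ ^ 2 * M0) * (7 / 10 * (a * N)) := by linarith
      have h6 : β / N * s ≤ β * Cw - 2 * Real.log (δ ^ 2 * M0) := by
        have h7 := mul_le_mul_of_nonneg_left h5 (show 0 ≤ β / N by positivity)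
        have e : β / N * (Cw * N - Real.log (δ ^ 2 * M0) * (7 / 10 * (a * N)))
            = β * Cw - 2 * Real.log (δ ^ 2 * M0) := by
          rw [hβ]; field_simp; ring
        linarith
      have h7 : (δ ^ 2 * M0) ^ 2 * Real.exp (-(β * Cw)) ≤ Real.exp (-(β / N * s)) := by
        have e : (δ ^ 2 * M0) ^ 2 * Real.exp (-(β * Cw))
            = Real.exp (2 * Real.log (δ ^ 2 * M0) + -(β * Cw)) := by
          rw [Real.exp_add, two_mul, Real.exp_add, Real.exp_log (by positivity), sq]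
        rw [e]
        exact Real.exp_le_exp.2 (by linarith)
      have h8 : 1 ≤ Real.cosh (β / N) ^ (R + 1) := one_le_pow₀ (Real.one_le_cosh _)
      have h9 : 1 ≤ D * Real.exp (-(β / N * s)) := by
        have h10 := mul_le_mul_of_nonneg_left h7 hD0.le
        have e : D * ((δ ^ 2 * M0) ^ 2 * Real.exp (-(β * Cw))) = 1 := by
          rw [hD, Real.exp_neg]
          field_simp
        linarith
      calc (1 : ℝ) ≤ (D * Real.exp (-(β / N * s))) * Real.cosh (β / N) ^ (R + 1) := by nlinarith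
        _ = D * Real.cosh (β / N) ^ (R + 1) * Real.exp (-(β / N * s)) := by ring)
    (fun _ => 0)
  refine key.trans ?_
  have e1 : M0 / (lam ^ 2 * M0) = 1 / lam ^ 2 := by field_simp
  -- the middle term
  have hPhi : Phi (sK N n) (sW N lr (Real.log (lam ^ 2 * M0)) R1 n) (fun _ : Fin m => 0) - M0
      ≤ -(M0 / 1300) := by
    have h1 := sW_end_le hN n R1 hn hlr0.le hL0 hL1 ha ha1 halr hR1c
    have h2 := sK_end_le (by linarith) n hn
    have h3 := sK_pos hN0 n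
    have h4 : (sW N lr (Real.log (lam ^ 2 * M0)) R1 n - ((0 : ℤ) : ℝ)) / sK N n ≤ -(1 / 1200) := by
      rw [div_le_iff₀ h3]
      push_cast
      linarith
    have h5 : G (sK N n) (sW N lr (Real.log (lam ^ 2 * M0)) R1 n) 0 ≤ 1299 / 1300 := by
      unfold G
      refine (Real.exp_le_exp.2 h4).trans ?_
      rw [Real.exp_neg]
      have h6 := Real.add_one_le_exp ((1 : ℝ) / 1200)
      rw [inv_le_comm₀ (Real.exp_pos _) (by norm_num)]
      refine le_trans ?_ h6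
      norm_num
    have h6 : Phi (sK N n) (sW N lr (Real.log (lam ^ 2 * M0)) R1 n) (fun _ : Fin m => 0)
        = m * G (sK N n) (sW N lr (Real.log (lam ^ 2 * M0)) R1 n) 0 := by
      unfold Phi; simp
    rw [h6]
    have h7 : (m : ℝ) * G (sK N n) (sW N lr (Real.log (lam ^ 2 * M0)) R1 n) 0
        ≤ M0 * (1299 / 1300) :=
      mul_le_mul hm h5 (G_pos _ _ _).le hM0p.le
    linarith
  have h2 : Real.exp (θ * (Phi (sK N n) (sW N lr (Real.log (lam ^ 2 * M0)) R1 n)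
      (fun _ : Fin m => 0) - M0)) ≤ Real.exp (-(7 * a * N / 65000000)) := by
    apply Real.exp_le_exp.2
    have h3 := mul_le_mul_of_nonneg_left hPhi hθ0
    have e : θ * -(M0 / 1300) = -(7 * a * N / 65000000) := by
      have : θ * -(M0 / 1300) = -((θ * M0) / 1300) := by ring
      rw [this, hθM]; ring
    linarith
  -- the last term
  have h3 : Psi D (β / N) n (fun _ : Fin m => 0)
      ≤ Real.exp (β * Cw + β ^ 2 / 2) / (δ ^ 4 * M0) := by
    have e : Psi D (β / N) n (fun _ : Fin m => 0) = m * (D * Real.cosh (β / N) ^ n) := by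
      unfold Psi; simp
    rw [e]
    have h4 : Real.cosh (β / N) ^ n ≤ Real.exp (β ^ 2 / 2) := by
      calc Real.cosh (β / N) ^ n ≤ Real.exp ((β / N) ^ 2 / 2) ^ n :=
            pow_le_pow_left₀ (Real.cosh_pos _).le (Real.cosh_le_exp_half_sq _) n
        _ = Real.exp (β ^ 2 / 2) := by
            rw [← Real.exp_nat_mul, hn]
            congr 1
            field_simp
    calc (m : ℝ) * (D * Real.cosh (β / N) ^ n) ≤ M0 * (D * Real.exp (β ^ 2 / 2)) := by
          apply mul_le_mul hm _ (by positivity) hM0p.le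
          exact mul_le_mul_of_nonneg_left h4 hD0.le
      _ = Real.exp (β * Cw + β ^ 2 / 2) / (δ ^ 4 * M0) := by
          rw [hD, Real.exp_add]; field_simp
  rw [e1]
  linarith

end Pool.Agent.PC55
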