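import Pool.Agent.PC55.Game

/-!
The two phases put together, for an abstract schedule.
-/

set_option autoImplicit false
open Finset Real

namespace Pool.Agent.PC55

theorem engine {δ : ℝ} (hδ : 0 ≤ δ)
    (hcomb : ∀ (m : ℕ) (a g : Fin m → ℝ), (∀ k, 0 ≤ a k) →
      (∀ k, 0 ≤ g k) → (∀ k, g k ≤ δ) → ∑ k, g k ^ 2 ≤ 1 →
      787 / 1000 * ∑ k, g k * a k + 1 / 5000 * nrm a ≤ Ex (fun v => |lin a v|))
    {m : ℕ} (n R1 : ℕ) (hR1 : R1 ≤ n) (K W : ℕ → ℝ) {M0 M1 κ0 κ1 θ D l : ℝ}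
    (hK0 : ∀ R, 0 < K R) (hKm : ∀ R, K R < K (R + 1))
    (hκ0 : 0 < κ0) (hκ1 : 0 < κ1) (hM0 : 0 < M0) (hM1 : 0 < M1)
    (hk1 : κ1 * Real.sqrt M1 ≤ 1 / 2) (hk0 : κ0 * Real.sqrt M0 = 787 / 1000)
    (hs1 : ∀ R, R < R1 → K R * (Real.cosh (1 / K R) - 1)
      + 2 * (K (R + 1) - K R) * (Real.log (2 * (K (R + 1) - K R) / κ1) - 1) ≤ W (R + 1) - W R)
    (hs0 : ∀ R, R1 ≤ R → R < n → K R * (Real.cosh (1 / K R) - 1)
      + 2 * (K (R + 1) - K R) * (Real.log (2 * (K (R + 1) - K R) / κ0) - 1) ≤ W (R + 1) - W R)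
    (hfin : ∀ s : ℤ, s < 0 → M1 ≤ G (K 0) (W 0) s)
    (hK2 : ∀ R, R1 ≤ R → 2 ≤ K R) (hθ0 : 0 ≤ θ) (hθ : ∀ R, R1 ≤ R → θ * M0 ≤ K R / 5000)
    (hD : 0 ≤ D) (hl : 0 ≤ l)
    (hΨ : ∀ R, R1 ≤ R → R < n → ∀ s : ℤ, δ ^ 2 * M0 < G (K (R + 1)) (W (R + 1)) s →
      1 ≤ D * Real.cosh l ^ (R + 1) * Real.exp (-(l * s)))
    (S : Fin m → ℤ) :
    Pb n S ≤ M0 / M1 + Real.exp (θ * (Phi (K n) (W n) S - M0)) + Psi D l n S := by
  -- phase one
  have h1 : ∀ S : Fin m → ℤ, Pb R1 S ≤ Phi (K R1) (W R1) S / M1 := by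
    apply Pb_bound (fun R S => Phi (K R) (W R) S / M1) 0 R1 (Nat.zero_le _)
    · intro S
      by_cases hS : ∃ k, S k < 0
      · obtain ⟨k, hk⟩ := hS
        refine (Pb_le_one _ _).trans ?_
        rw [le_div_iff₀ hM1, one_mul]
        exact (hfin _ hk).trans
          (Finset.single_le_sum (f := fun k => G (K 0) (W 0) (S k)) (fun _ _ => (G_pos _ _ _).le)
            (mem_univ k))
      · rw [Pb_zero_of_not S hS]
        exact div_nonneg (Phi_nonneg _ _ _) hM1.le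
    · intro R _ hR S hlt
      rw [div_lt_one hM1] at hlt
      refine ⟨fun v => cho (co (K R) (W R) S) v, ?_⟩
      have h := phase_one (K := K R) (K' := K (R + 1)) (W := W R) (W' := W (R + 1)) hκ1.le hk1
        (exp_step (hK0 R) (hKm R) hκ1 (hs1 R hR)) S hlt.le
      have e : (fun v => Phi (K R) (W R) (move S (cho (co (K R) (W R) S) v) v) / M1)
          = fun v => (1 / M1) * Phi (K R) (W R) (move S (cho (co (K R) (W R) S) v) v) := by
        funext v; ring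
      show Ex (fun v => Phi (K R) (W R) (move S (cho (co (K R) (W R) S) v) v) / M1)
        ≤ Phi (K (R + 1)) (W (R + 1)) S / M1
      rw [e, Ex_mul]
      calc 1 / M1 * Ex (fun v => Phi (K R) (W R) (move S (cho (co (K R) (W R) S) v) v))
          ≤ 1 / M1 * Phi (K (R + 1)) (W (R + 1)) S := mul_le_mul_of_nonneg_left h (by positivity)
        _ = _ := by ring
  -- phase two
  apply Pb_bound (fun R S => M0 / M1 + Real.exp (θ * (Phi (K R) (W R) S - M0)) + Psi D l R S)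
    R1 n hR1
  · intro S
    have hP := Psi_nonneg hD l R1 S
    have hE := Real.exp_pos (θ * (Phi (K R1) (W R1) S - M0))
    have hMM : 0 < M0 / M1 := by positivity
    by_cases hS : Phi (K R1) (W R1) S ≤ M0
    · have h2 := div_le_div_of_nonneg_right hS hM1.le
      show Pb R1 S ≤ M0 / M1 + Real.exp (θ * (Phi (K R1) (W R1) S - M0)) + Psi D l R1 S
      linarith [h1 S]
    · have h2 : 1 ≤ Real.exp (θ * (Phi (K R1) (W R1) S - M0)) :=
        Real.one_le_exp (mul_nonneg hθ0 (by linarith [not_le.1 hS]))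
      show Pb R1 S ≤ M0 / M1 + Real.exp (θ * (Phi (K R1) (W R1) S - M0)) + Psi D l R1 S
      linarith [Pb_le_one R1 S]
  · intro R hR hRn S hlt
    have hP := Psi_nonneg hD l (R + 1) S
    have hE := Real.exp_pos (θ * (Phi (K (R + 1)) (W (R + 1)) S - M0))
    have hMM : 0 < M0 / M1 := by positivity
    have hlt' : M0 / M1 + Real.exp (θ * (Phi (K (R + 1)) (W (R + 1)) S - M0))
      + Psi D l (R + 1) S < 1 := hlt
    have hS : Phi (K (R + 1)) (W (R + 1)) S ≤ M0 := by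
      by_contra hcon
      have h2 : 1 ≤ Real.exp (θ * (Phi (K (R + 1)) (W (R + 1)) S - M0)) :=
        Real.one_le_exp (mul_nonneg hθ0 (by linarith [not_le.1 hcon]))
      linarith
    have hG : ∀ k, G (K (R + 1)) (W (R + 1)) (S k) ≤ δ ^ 2 * M0 := by
      intro k
      by_contra hcon
      have h2 := hΨ R hR hRn (S k) (not_le.1 hcon)
      have h3 : D * Real.cosh l ^ (R + 1) * Real.exp (-(l * S k)) ≤ Psi D l (R + 1) S :=
        Finset.single_le_sum (f := fun k => D * Real.cosh l ^ (R + 1) * Real.exp (-(l * S k)))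
          (fun _ _ => by
            have := Real.cosh_pos l
            positivity) (mem_univ k)
      linarith
    refine ⟨fun v => cho (co (K R) (W R) S) v, ?_⟩
    have h2 := phase_two hcomb (K := K R) (K' := K (R + 1)) (W := W R) (W' := W (R + 1))
      (hK2 R hR) hM0 hκ0.le hk0 hθ0 (hθ R hR)
      (exp_step (hK0 R) (hKm R) hκ0 (hs0 R hR hRn)) S hS hG hδ
    have h3 := Psi_step hD hl R S (co (K R) (W R) S) (co_nonneg (hK0 R) (W R) S)
    show Ex (fun v => M0 / M1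
        + Real.exp (θ * (Phi (K R) (W R) (move S (cho (co (K R) (W R) S) v) v) - M0))
        + Psi D l R (move S (cho (co (K R) (W R) S) v) v))
      ≤ M0 / M1 + Real.exp (θ * (Phi (K (R + 1)) (W (R + 1)) S - M0)) + Psi D l (R + 1) S
    rw [Ex_add, Ex_add, Ex_const]
    linarith

end Pool.Agent.PC55
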