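import Pool.Agent.PC55.Khin

/-!
The covering event revealed one coordinate at a time, and the potentials.
-/

set_option autoImplicit false
open Finset Real

namespace Pool.Agent.PC55

/-- the sign of a bit, as an integer -/
def zs (b : Bool) : ℤ := if b then 1 else -1

lemma zs_cast (b : Bool) : ((zs b : ℤ) : ℝ) = sg b := by cases b <;> simp [zs]

section Game
variable {m : ℕ}

/-- the bad columns: no choice of signs keeps all the sums nonnegative -/
def Bad (R : ℕ) (S : Fin m → ℤ) (W : Fin R → Fin m → Bool) : Prop :=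
  ∀ w : Fin R → Bool, ∃ k, S k + ∑ i, zs (W i k) * zs (w i) < 0

open Classical in
/-- probability that the remaining `R` random columns are bad -/
noncomputable def Pb (R : ℕ) (S : Fin m → ℤ) : ℝ :=
  (∑ W : Fin R → Fin m → Bool, if Bad R S W then (1 : ℝ) else 0) / 2 ^ (R * m)

/-- the new sums after one column -/
def move (S : Fin m → ℤ) (b : Bool) (v : Fin m → Bool) : Fin m → ℤ :=
  fun k => S k + zs b * zs (v k)

lemma Pb_zero_of_not (S : Fin m → ℤ) (h : ¬ ∃ k, S k < 0) : Pb 0 S = 0 := by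
  unfold Pb
  rw [Finset.sum_eq_zero, zero_div]
  intro W _
  rw [if_neg]
  intro hB
  obtain ⟨k, hk⟩ := hB Fin.elim0
  exact h ⟨k, by simpa using hk⟩

lemma Pb_le_one (R : ℕ) (S : Fin m → ℤ) : Pb R S ≤ 1 := by
  classical
  unfold Pb
  rw [div_le_one (by positivity)]
  calc (∑ W : Fin R → Fin m → Bool, if Bad R S W then (1 : ℝ) else 0)
      ≤ ∑ _W : Fin R → Fin m → Bool, (1 : ℝ) :=
        Finset.sum_le_sum fun W _ => by split_ifs <;> norm_num
    _ = 2 ^ (R * m) := by
        simp [Finset.card_univ]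
        rw [← pow_mul, mul_comm]

lemma Pb_nonneg (R : ℕ) (S : Fin m → ℤ) : 0 ≤ Pb R S := by
  classical
  unfold Pb
  exact div_nonneg (Finset.sum_nonneg fun W _ => by split_ifs <;> norm_num) (by positivity)

lemma Pb_succ (R : ℕ) (S : Fin m → ℤ) (ω : (Fin m → Bool) → Bool) :
    Pb (R + 1) S ≤ Ex (fun v => Pb R (move S (ω v) v)) := by
  classical
  have h : (∑ W : Fin (R + 1) → Fin m → Bool, if Bad (R + 1) S W then (1 : ℝ) else 0)
      ≤ ∑ v : Fin m → Bool, ∑ W : Fin R → Fin m → Bool,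
        if Bad R (move S (ω v) v) W then (1 : ℝ) else 0 := by
    rw [← (Fin.consEquiv (fun _ => Fin m → Bool)).sum_comp, Fintype.sum_prod_type]
    apply Finset.sum_le_sum
    intro v _
    apply Finset.sum_le_sum
    intro W _
    by_cases hB : Bad (R + 1) S ((Fin.consEquiv (fun _ => Fin m → Bool)) (v, W))
    · have hB' : Bad R (move S (ω v) v) W := by
        intro w
        obtain ⟨k, hk⟩ := hB (Fin.cons (ω v) w)
        refine ⟨k, ?_⟩
        rw [Fin.sum_univ_succ] at hk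
        simp only [Fin.consEquiv_apply, Fin.cons_zero, Fin.cons_succ] at hk
        unfold move
        linarith [mul_comm (zs (v k)) (zs (ω v))]
      rw [if_pos hB, if_pos hB']
    · rw [if_neg hB]
      split_ifs <;> norm_num
  unfold Pb Ex
  have e : (2 : ℝ) ^ ((R + 1) * m) = 2 ^ (R * m) * 2 ^ m := by rw [← pow_add]; congr 1; ring
  rw [e, ← Finset.sum_div, div_div]
  exact div_le_div_of_nonneg_right h (by positivity)

theorem Pb_bound (B : ℕ → (Fin m → ℤ) → ℝ) (R0 n : ℕ) (hn : R0 ≤ n)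
    (h0 : ∀ S, Pb R0 S ≤ B R0 S)
    (hs : ∀ R, R0 ≤ R → R < n → ∀ S, B (R + 1) S < 1 →
      ∃ ω : (Fin m → Bool) → Bool, Ex (fun v => B R (move S (ω v) v)) ≤ B (R + 1) S) :
    ∀ S, Pb n S ≤ B n S := by
  have key : ∀ R, R0 ≤ R → R ≤ n → ∀ S, Pb R S ≤ B R S := by
    intro R hR
    induction R, hR using Nat.le_induction with
    | base => intro _ S; exact h0 S
    | succ R hR ih =>
      intro hRn S
      by_cases h1 : B (R + 1) S < 1
      · obtain ⟨ω, hω⟩ := hs R hR (by omega) S h1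
        exact (Pb_succ R S ω).trans ((Ex_mono fun v => ih (by omega) _).trans hω)
      · exact (Pb_le_one _ _).trans (not_lt.1 h1)
  exact key n hn le_rfl

end Game

section Potential

/-- the potential of one pattern -/
noncomputable def G (K W : ℝ) (s : ℤ) : ℝ := Real.exp ((W - s) / K)

lemma G_pos (K W : ℝ) (s : ℤ) : 0 < G K W s := Real.exp_pos _

variable {m : ℕ}

noncomputable def Phi (K W : ℝ) (S : Fin m → ℤ) : ℝ := ∑ k, G K W (S k)

lemma Phi_nonneg (K W : ℝ) (S : Fin m → ℤ) : 0 ≤ Phi K W S :=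
  Finset.sum_nonneg fun _ _ => (G_pos _ _ _).le

/-- the drift coefficients -/
noncomputable def co (K W : ℝ) (S : Fin m → ℤ) : Fin m → ℝ :=
  fun k => Real.sinh (1 / K) * G K W (S k)

lemma co_nonneg {K : ℝ} (hK : 0 < K) (W : ℝ) (S : Fin m → ℤ) (k : Fin m) : 0 ≤ co K W S k :=
  mul_nonneg (Real.sinh_nonneg_iff.2 (by positivity)) (G_pos _ _ _).le

lemma exp_sg (x : ℝ) (b c : Bool) :
    Real.exp (-(x * (sg b * sg c))) = Real.cosh x - sg b * sg c * Real.sinh x := by
  rw [Real.cosh_eq, Real.sinh_eq]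
  cases b <;> cases c <;> simp <;> ring

lemma Phi_move (K W : ℝ) (S : Fin m → ℤ) (v : Fin m → Bool) :
    Phi K W (move S (cho (co K W S) v) v)
      = Real.cosh (1 / K) * Phi K W S - |lin (co K W S) v| := by
  rw [← sg_cho_mul]
  unfold Phi lin
  rw [Finset.mul_sum, Finset.mul_sum, ← Finset.sum_sub_distrib]
  apply Finset.sum_congr rfl
  intro k _
  unfold G move co
  push_cast
  rw [zs_cast, zs_cast]
  set b := cho (fun k => Real.sinh (1 / K) * G K W (S k)) v
  have e : (W - ((S k : ℝ) + sg b * sg (v k))) / K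
      = (W - S k) / K + -(1 / K * (sg b * sg (v k))) := by ring
  rw [e, Real.exp_add, exp_sg]
  unfold G
  ring

/-- the one pattern inequality -/
theorem exp_step {K K' W W' κ : ℝ} (hK : 0 < K) (hKK : K < K') (hκ : 0 < κ)
    (hW : K * (Real.cosh (1 / K) - 1) + 2 * (K' - K) * (Real.log (2 * (K' - K) / κ) - 1) ≤ W' - W)
    (s : ℤ) :
    Real.cosh (1 / K) * G K W s - κ * Real.sqrt (G K' W' s) * (Real.sinh (1 / K) * G K W s)
      ≤ G K' W' s := by
  set δ := K' - K with hδ
  have hδ0 : 0 < δ := by linarith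
  have hK' : 0 < K' := by linarith
  set z : ℝ := (W' - s) / K' with hz
  set y : ℝ := (W - s) / K with hy
  have hs1 : (s : ℝ) = W' - K' * z := by rw [hz]; field_simp; ring
  have hxz : y = ((K' * z) - (W' - W)) / K := by rw [hy, hs1]; ring
  have hX : G K' W' s = Real.exp z := rfl
  have hY : G K W s = Real.exp y := rfl
  have hsq : Real.sqrt (Real.exp z) = Real.exp (z / 2) := by
    rw [Real.sqrt_eq_iff_mul_self_eq (Real.exp_pos _).le (Real.exp_pos _).le, ← Real.exp_add]
    congr 1; ring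
  rw [hX, hY, hsq]
  -- divide by `exp y`
  have hsinh : 1 / K ≤ Real.sinh (1 / K) := Real.self_le_sinh_iff.2 (by positivity)
  have hcpos : 0 < 2 * δ / κ := by positivity
  have h1 : 2 * δ / κ * (1 + z / 2 - Real.log (2 * δ / κ)) ≤ Real.exp (z / 2) := by
    have h := Real.add_one_le_exp (z / 2 - Real.log (2 * δ / κ))
    rw [Real.exp_sub, Real.exp_log hcpos, le_div_iff₀ hcpos] at h
    linarith
  have h2 : (1 / K) * (2 * δ) * (1 + z / 2 - Real.log (2 * δ / κ)) ≤ κ * Real.exp (z / 2) * Real.sinh (1 / K) := by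
    have h3 : κ * (2 * δ / κ * (1 + z / 2 - Real.log (2 * δ / κ))) ≤ κ * Real.exp (z / 2) :=
      mul_le_mul_of_nonneg_left h1 hκ.le
    have h4 : κ * (2 * δ / κ * (1 + z / 2 - Real.log (2 * δ / κ)))
        = 2 * δ * (1 + z / 2 - Real.log (2 * δ / κ)) := by field_simp
    rw [h4] at h3
    have h5 : κ * Real.exp (z / 2) * (1 / K) ≤ κ * Real.exp (z / 2) * Real.sinh (1 / K) :=
      mul_le_mul_of_nonneg_left hsinh (by positivity)
    have h6 := mul_le_mul_of_nonneg_right h3 (show (0 : ℝ) ≤ 1 / K by positivity)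
    nlinarith
  have h7 : Real.cosh (1 / K) - κ * Real.exp (z / 2) * Real.sinh (1 / K) ≤ 1 + (z - y) := by
    have e : z - y = ((W' - W) - δ * z) / K := by rw [hxz, hδ]; field_simp; ring
    rw [e]
    have h8 : K * (Real.cosh (1 / K) - 1) ≤ (W' - W) - 2 * δ * (Real.log (2 * δ / κ) - 1) := by linarith
    have h9 : Real.cosh (1 / K) - 1 ≤ ((W' - W) - 2 * δ * (Real.log (2 * δ / κ) - 1)) / K := by
      rw [le_div_iff₀ hK]; linarith
    have e2 : ((W' - W) - 2 * δ * (Real.log (2 * δ / κ) - 1)) / K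
        = ((W' - W) - δ * z) / K + (1 / K) * (2 * δ) * (1 + z / 2 - Real.log (2 * δ / κ)) := by
      field_simp; ring
    linarith
  have h8 : 1 + (z - y) ≤ Real.exp (z - y) := by
    have := Real.add_one_le_exp (z - y); linarith
  have h9 := mul_le_mul_of_nonneg_right (h7.trans h8) (Real.exp_pos y).le
  rw [← Real.exp_add] at h9
  have e3 : z - y + y = z := by ring
  rw [e3] at h9
  linarith

/-- summing over the patterns -/
theorem sum_step {K K' W W' κ : ℝ}
    (h : ∀ s : ℤ, Real.cosh (1 / K) * G K W s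
      - κ * Real.sqrt (G K' W' s) * (Real.sinh (1 / K) * G K W s) ≤ G K' W' s)
    (S : Fin m → ℤ) :
    Real.cosh (1 / K) * Phi K W S
      ≤ Phi K' W' S + ∑ k, κ * Real.sqrt (G K' W' (S k)) * co K W S k := by
  unfold Phi
  rw [Finset.mul_sum, ← Finset.sum_add_distrib]
  apply Finset.sum_le_sum
  intro k _
  have := h (S k)
  unfold co
  linarith

lemma cs_step {K K' W W' κ : ℝ} (hκ : 0 ≤ κ) (S : Fin m → ℤ) :
    ∑ k, κ * Real.sqrt (G K' W' (S k)) * co K W S k
      ≤ κ * Real.sqrt (Phi K' W' S) * nrm (co K W S) := by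
  have h := Finset.sum_mul_sq_le_sq_mul_sq univ (fun k => Real.sqrt (G K' W' (S k))) (co K W S)
  have h1 : ∑ k, Real.sqrt (G K' W' (S k)) ^ 2 = Phi K' W' S :=
    Finset.sum_congr rfl fun k _ => Real.sq_sqrt (G_pos _ _ _).le
  rw [h1, ← nrm_sq (co K W S)] at h
  have h2 : ∑ k, Real.sqrt (G K' W' (S k)) * co K W S k
      ≤ Real.sqrt (Phi K' W' S) * nrm (co K W S) := by
    apply le_of_sq_le_sq _ (mul_nonneg (Real.sqrt_nonneg _) (nrm_nonneg _))
    rw [mul_pow, Real.sq_sqrt (Phi_nonneg _ _ _)]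
    exact h
  calc ∑ k, κ * Real.sqrt (G K' W' (S k)) * co K W S k
      = κ * ∑ k, Real.sqrt (G K' W' (S k)) * co K W S k := by
        rw [Finset.mul_sum]; exact Finset.sum_congr rfl fun k _ => by ring
    _ ≤ κ * (Real.sqrt (Phi K' W' S) * nrm (co K W S)) := mul_le_mul_of_nonneg_left h2 hκ
    _ = _ := by ring

/-- one step of the final phase -/
theorem phase_one {K K' W W' κ M : ℝ} (hκ : 0 ≤ κ) (hM : κ * Real.sqrt M ≤ 1 / 2)
    (h : ∀ s : ℤ, Real.cosh (1 / K) * G K W s
      - κ * Real.sqrt (G K' W' s) * (Real.sinh (1 / K) * G K W s) ≤ G K' W' s)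
    (S : Fin m → ℤ) (hS : Phi K' W' S ≤ M) :
    Ex (fun v => Phi K W (move S (cho (co K W S) v) v)) ≤ Phi K' W' S := by
  have e : (fun v => Phi K W (move S (cho (co K W S) v) v))
      = fun v => Real.cosh (1 / K) * Phi K W S - |lin (co K W S) v| :=
    funext fun v => Phi_move K W S v
  rw [e, Ex_sub, Ex_const]
  have h1 := sum_step h S
  have h2 := cs_step (K := K) (K' := K') (W := W) (W' := W') hκ S
  have h3 := half_nrm_le (co K W S)
  have h4 : κ * Real.sqrt (Phi K' W' S) ≤ 1 / 2 :=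
    le_trans (mul_le_mul_of_nonneg_left (Real.sqrt_le_sqrt hS) hκ) hM
  have h5 := mul_le_mul_of_nonneg_right h4 (nrm_nonneg (co K W S))
  linarith

lemma nrm_le_sum (a : Fin m → ℝ) (ha : ∀ k, 0 ≤ a k) : nrm a ≤ ∑ k, a k := by
  have h0 : 0 ≤ ∑ k, a k := Finset.sum_nonneg fun k _ => ha k
  apply le_of_sq_le_sq _ h0
  rw [nrm_sq]
  exact Finset.sum_sq_le_sq_sum_of_nonneg fun k _ => ha k

lemma sinh_le_mul_cosh {u : ℝ} (hu : 0 ≤ u) : Real.sinh u ≤ u * Real.cosh u := by
  have hd : ∀ x : ℝ, HasDerivAt (fun x => x * Real.cosh x - Real.sinh x) (x * Real.sinh x) x := by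
    intro x
    have h := ((hasDerivAt_id x).mul (Real.hasDerivAt_cosh x)).sub (Real.hasDerivAt_sinh x)
    have e : (1 : ℝ) * Real.cosh x + id x * Real.sinh x - Real.cosh x = x * Real.sinh x := by
      simp
    rw [e] at h
    exact h
  have hm : MonotoneOn (fun x => x * Real.cosh x - Real.sinh x) (Set.Ici 0) := by
    apply monotoneOn_of_deriv_nonneg (convex_Ici 0)
    · exact fun x _ => (hd x).continuousAt.continuousWithinAt
    · exact fun x _ => (hd x).differentiableAt.differentiableWithinAt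
    · intro x hx
      rw [interior_Ici] at hx
      rw [(hd x).deriv]
      have hx' : 0 < x := hx
      have := Real.sinh_pos_iff.2 hx'
      positivity
  have := hm (Set.mem_Ici.2 le_rfl) (Set.mem_Ici.2 hu) hu
  simp at this
  linarith

/-- one step of the bulk phase: the exponential of the potential -/
theorem phase_two {δ : ℝ}
    (hcomb : ∀ (m : ℕ) (a g : Fin m → ℝ), (∀ k, 0 ≤ a k) →
      (∀ k, 0 ≤ g k) → (∀ k, g k ≤ δ) → ∑ k, g k ^ 2 ≤ 1 →
      787 / 1000 * ∑ k, g k * a k + 1 / 5000 * nrm a ≤ Ex (fun v => |lin a v|))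
    {K K' W W' κ M θ : ℝ} (hK : 2 ≤ K) (hM0 : 0 < M) (hκ : 0 ≤ κ)
    (hM : κ * Real.sqrt M = 787 / 1000) (hθ0 : 0 ≤ θ) (hθ : θ * M ≤ K / 5000)
    (h : ∀ s : ℤ, Real.cosh (1 / K) * G K W s
      - κ * Real.sqrt (G K' W' s) * (Real.sinh (1 / K) * G K W s) ≤ G K' W' s)
    (S : Fin m → ℤ) (hS : Phi K' W' S ≤ M) (hG : ∀ k, G K' W' (S k) ≤ δ ^ 2 * M) (hδ : 0 ≤ δ) :
    Ex (fun v => Real.exp (θ * (Phi K W (move S (cho (co K W S) v) v) - M)))
      ≤ Real.exp (θ * (Phi K' W' S - M)) := by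
  have hK0 : 0 < K := by linarith
  set a := co K W S with ha
  have ha0 : ∀ k, 0 ≤ a k := co_nonneg hK0 W S
  set A := Real.cosh (1 / K) * Phi K W S with hA
  set σ := nrm a with hσ
  have hσ0 : 0 ≤ σ := nrm_nonneg a
  have hM1 : 0 < Real.sqrt M := Real.sqrt_pos.2 hM0
  -- the norm is at most `2 M / K`
  have hA1 : A ≤ M + σ := by
    have h1 := sum_step h S
    have h2 := cs_step (K := K) (K' := K') (W := W) (W' := W') hκ S
    have h4 : κ * Real.sqrt (Phi K' W' S) ≤ 1 := by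
      have := mul_le_mul_of_nonneg_left (Real.sqrt_le_sqrt hS) hκ
      linarith
    have h5 := mul_le_mul_of_nonneg_right h4 hσ0
    rw [← ha, ← hσ] at h2
    linarith
  have hσA : σ ≤ A / K := by
    have h1 : σ ≤ ∑ k, a k := nrm_le_sum a ha0
    have h2 : ∑ k, a k = Real.sinh (1 / K) * Phi K W S := by
      rw [ha]; unfold co Phi; rw [Finset.mul_sum]
    have h3 := sinh_le_mul_cosh (show (0 : ℝ) ≤ 1 / K by positivity)
    have h4 := mul_le_mul_of_nonneg_right h3 (Phi_nonneg K W S)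
    have e : 1 / K * Real.cosh (1 / K) * Phi K W S = A / K := by rw [hA]; ring
    rw [e] at h4
    linarith
  have hσM : σ ≤ 2 * M / K := by
    rw [le_div_iff₀ hK0] at hσA ⊢
    nlinarith
  have hθσ : θ * σ / 2 ≤ 1 / 5000 := by
    have h1 : θ * σ ≤ θ * (2 * M / K) := mul_le_mul_of_nonneg_left hσM hθ0
    have h2 : θ * (2 * M / K) = 2 * (θ * M) / K := by ring
    have h3 : 2 * (θ * M) / K ≤ 2 * (K / 5000) / K :=
      div_le_div_of_nonneg_right (by linarith) hK0.le
    have h4 : 2 * (K / 5000) / K = 2 / 5000 := by field_simp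
    linarith
  -- the drift
  have hdrift : A + θ * σ ^ 2 / 2 ≤ Phi K' W' S + Ex (fun v => |lin a v|) := by
    have h1 := sum_step h S
    set g : Fin m → ℝ := fun k => Real.sqrt (G K' W' (S k) / M) with hg
    have hg2 : ∑ k, g k ^ 2 ≤ 1 := by
      have e : ∀ k, g k ^ 2 = G K' W' (S k) / M := fun k =>
        Real.sq_sqrt (div_nonneg (G_pos _ _ _).le hM0.le)
      rw [Finset.sum_congr rfl fun k _ => e k, ← Finset.sum_div, div_le_one hM0]
      exact hS
    have hgδ : ∀ k, g k ≤ δ := by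
      intro k
      simp only [hg]
      rw [Real.sqrt_le_left hδ, div_le_iff₀ hM0]
      exact hG k
    have h2 := hcomb m a g ha0 (fun k => Real.sqrt_nonneg _) hgδ hg2
    have h3 : ∑ k, κ * Real.sqrt (G K' W' (S k)) * co K W S k = 787 / 1000 * ∑ k, g k * a k := by
      rw [Finset.mul_sum]
      apply Finset.sum_congr rfl
      intro k _
      simp only [hg]
      rw [← hM, Real.sqrt_div (G_pos _ _ _).le]
      field_simp
      rfl
    rw [h3] at h1
    have h4 : θ * σ ^ 2 / 2 ≤ 1 / 5000 * σ := by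
      have := mul_le_mul_of_nonneg_right hθσ hσ0
      nlinarith
    linarith
  have e1 : (fun v => Real.exp (θ * (Phi K W (move S (cho a v) v) - M)))
      = fun v => Real.exp (θ * (A - M)) * Real.exp (-(θ * |lin a v|)) := by
    funext v
    rw [← Real.exp_add, ha, Phi_move]
    congr 1
    ring
  rw [e1, Ex_mul]
  have h2 : Ex (fun v => Real.exp (-(θ * |lin a v|)))
      ≤ Real.exp (-(θ * Ex (fun v => |lin a v|)) + θ ^ 2 * σ ^ 2 / 2) := by
    have h3 : ∀ v, Real.exp (-(θ * |lin a v|)) ≤ 1 - θ * |lin a v| + θ ^ 2 / 2 * lin a v ^ 2 := by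
      intro v
      have hx : 0 ≤ θ * |lin a v| := mul_nonneg hθ0 (abs_nonneg _)
      have h4 := Real.quadratic_le_exp_of_nonneg hx
      have h5 : (θ * |lin a v|) ^ 2 = θ ^ 2 * lin a v ^ 2 := by rw [mul_pow, sq_abs]
      set x := θ * |lin a v| with hxdef
      have h6 : Real.exp (-x) ≤ 1 - x + x ^ 2 / 2 := by
        rw [Real.exp_neg, inv_le_comm₀ (Real.exp_pos _) (by nlinarith [sq_nonneg (x - 1)])]
        refine le_trans ?_ h4
        rw [inv_le_comm₀ (by nlinarith [sq_nonneg (x - 1)]) (by positivity)]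
        rw [inv_le_iff_one_le_mul₀ (by positivity)]
        nlinarith [sq_nonneg (x ^ 2), hx]
      calc Real.exp (-x) ≤ 1 - x + x ^ 2 / 2 := h6
        _ = _ := by rw [h5]; ring
    have h4 := Ex_mono h3
    have e2 : Ex (fun v => 1 - θ * |lin a v| + θ ^ 2 / 2 * lin a v ^ 2)
        = 1 - θ * Ex (fun v => |lin a v|) + θ ^ 2 / 2 * σ ^ 2 := by
      rw [Ex_add, Ex_sub, Ex_mul, Ex_mul, Ex_sq, Ex_const]
    rw [e2] at h4
    refine h4.trans ?_
    have := Real.add_one_le_exp (-(θ * Ex (fun v => |lin a v|)) + θ ^ 2 * σ ^ 2 / 2)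
    linarith
  calc Real.exp (θ * (A - M)) * Ex (fun v => Real.exp (-(θ * |lin a v|)))
      ≤ Real.exp (θ * (A - M)) * Real.exp (-(θ * Ex (fun v => |lin a v|)) + θ ^ 2 * σ ^ 2 / 2) :=
        mul_le_mul_of_nonneg_left h2 (Real.exp_pos _).le
    _ = Real.exp (θ * (A + θ * σ ^ 2 / 2 - Ex (fun v => |lin a v|) - M)) := by
        rw [← Real.exp_add]; congr 1; ring
    _ ≤ Real.exp (θ * (Phi K' W' S - M)) := by
        apply Real.exp_le_exp.2
        apply mul_le_mul_of_nonneg_left _ hθ0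
        linarith

/-- the linear potential which excludes very bad patterns -/
noncomputable def Psi (D l : ℝ) (R : ℕ) (S : Fin m → ℤ) : ℝ :=
  ∑ k, D * Real.cosh l ^ R * Real.exp (-(l * S k))

lemma Psi_nonneg {D : ℝ} (hD : 0 ≤ D) (l : ℝ) (R : ℕ) (S : Fin m → ℤ) : 0 ≤ Psi D l R S :=
  Finset.sum_nonneg fun _ _ => by
    have := Real.cosh_pos l
    positivity

lemma Psi_step {D l : ℝ} (hD : 0 ≤ D) (hl : 0 ≤ l) (R : ℕ) (S : Fin m → ℤ) (a : Fin m → ℝ)
    (ha : ∀ k, 0 ≤ a k) :
    Ex (fun v => Psi D l R (move S (cho a v) v)) ≤ Psi D l (R + 1) S := by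
  unfold Psi
  rw [Ex_sum]
  apply Finset.sum_le_sum
  intro k _
  have hc := Real.cosh_pos l
  have e : (fun v => D * Real.cosh l ^ R * Real.exp (-(l * (move S (cho a v) v k : ℤ))))
      = fun v => (D * Real.cosh l ^ R * Real.exp (-(l * S k)))
        * (Real.cosh l - Real.sinh l * (sg (cho a v) * sg (v k))) := by
    funext v
    unfold move
    push_cast
    rw [zs_cast, zs_cast]
    have e2 : -(l * ((S k : ℝ) + sg (cho a v) * sg (v k)))
        = -(l * S k) + -(l * (sg (cho a v) * sg (v k))) := by ring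
    rw [e2, Real.exp_add, exp_sg]
    ring
  rw [e, Ex_mul, Ex_sub, Ex_const, Ex_mul]
  have h1 := cho_corr a k (ha k)
  have h2 : 0 ≤ Real.sinh l := Real.sinh_nonneg_iff.2 hl
  have h3 : 0 ≤ Real.sinh l * Ex (fun v => sg (cho a v) * sg (v k)) := mul_nonneg h2 h1
  have h4 : 0 ≤ D * Real.cosh l ^ R * Real.exp (-(l * S k)) := by positivity
  calc D * Real.cosh l ^ R * Real.exp (-(l * S k))
        * (Real.cosh l - Real.sinh l * Ex (fun v => sg (cho a v) * sg (v k)))
      ≤ D * Real.cosh l ^ R * Real.exp (-(l * S k)) * Real.cosh l :=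
        mul_le_mul_of_nonneg_left (by linarith) h4
    _ = D * Real.cosh l ^ (R + 1) * Real.exp (-(l * S k)) := by rw [pow_succ]; ring

end Potential

end Pool.Agent.PC55
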