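import Mathlib

/-!
The triangle wave: partial sums of its cosine series are below `|x|`.
-/

set_option autoImplicit false
open Finset Real

namespace Pool.Agent.PC55

lemma full_hasSum {u : ℝ} (hu : u ∈ Set.Icc (0 : ℝ) 1) :
    HasSum (fun n : ℕ => (1 - Real.cos (2 * π * n * u)) / (n : ℝ) ^ 2) (π ^ 2 * (u - u ^ 2)) := by
  have h1 := hasSum_one_div_nat_pow_mul_cos (k := 1) one_ne_zero hu
  have h0 := hasSum_one_div_nat_pow_mul_cos (k := 1) one_ne_zero
    (x := 0) (Set.left_mem_Icc.2 zero_le_one)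
  have e : ∀ x : ℝ, (Polynomial.map (algebraMap ℚ ℝ) (Polynomial.bernoulli (2 * 1))).eval x
      = x ^ 2 - x + 6⁻¹ := fun x => bernoulliFun_two x
  rw [e] at h1 h0
  have h := h0.sub h1
  have hv : (-1 : ℝ) ^ (1 + 1) * (2 * π) ^ (2 * 1) / 2 / ((2 * 1).factorial : ℝ) * (0 ^ 2 - 0 + 6⁻¹)
      - (-1 : ℝ) ^ (1 + 1) * (2 * π) ^ (2 * 1) / 2 / ((2 * 1).factorial : ℝ) * (u ^ 2 - u + 6⁻¹)
      = π ^ 2 * (u - u ^ 2) := by
    have : ((2 * 1).factorial : ℝ) = 2 := by norm_num [Nat.factorial]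
    rw [this]; ring
  rw [hv] at h
  have hf : (fun n : ℕ => (1 - Real.cos (2 * π * n * u)) / (n : ℝ) ^ 2)
      = fun n : ℕ => 1 / (n : ℝ) ^ (2 * 1) * Real.cos (2 * π * n * 0)
        - 1 / (n : ℝ) ^ (2 * 1) * Real.cos (2 * π * n * u) := by
    funext n
    rw [mul_zero, Real.cos_zero, mul_one (2 : ℕ)]
    ring
  rw [hf]
  exact h

lemma odd_hasSum {u : ℝ} (hu0 : 0 ≤ u) (hu1 : u ≤ 1 / 2) :
    HasSum (fun j : ℕ => (1 - Real.cos (2 * π * (2 * j + 1) * u)) / (2 * (j : ℝ) + 1) ^ 2)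
      (π ^ 2 * u / 2) := by
  have hF := full_hasSum (u := u) ⟨hu0, by linarith⟩
  have hG := full_hasSum (u := 2 * u) ⟨by linarith, by linarith⟩
  set F : ℕ → ℝ := fun n : ℕ => (1 - Real.cos (2 * π * n * u)) / (n : ℝ) ^ 2 with hFdef
  have he : HasSum (fun k : ℕ => F (2 * k)) (π ^ 2 * (2 * u - (2 * u) ^ 2) / 4) := by
    have h := hG.div_const 4
    have e : (fun k : ℕ => F (2 * k))
        = fun k : ℕ => (1 - Real.cos (2 * π * k * (2 * u))) / (k : ℝ) ^ 2 / 4 := by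
      funext k
      simp only [hFdef]
      push_cast
      rw [show 2 * π * (2 * (k : ℝ)) * u = 2 * π * k * (2 * u) by ring, div_div]
      congr 1
      ring
    rw [e]; exact h
  have ho : Summable (fun k : ℕ => F (2 * k + 1)) :=
    hF.summable.comp_injective (i := fun k : ℕ => 2 * k + 1) (by
      intro a b h
      have : 2 * a + 1 = 2 * b + 1 := h
      omega)
  have hs := (he.even_add_odd ho.hasSum).unique hF
  have hval : ∑' k, F (2 * k + 1) = π ^ 2 * u / 2 := by linarith [hs]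
  have h := ho.hasSum
  rw [hval] at h
  have e : (fun j : ℕ => (1 - Real.cos (2 * π * (2 * j + 1) * u)) / (2 * (j : ℝ) + 1) ^ 2)
      = fun k : ℕ => F (2 * k + 1) := by
    funext k
    simp only [hFdef]
    push_cast
    rfl
  rw [e]
  exact h

lemma odd_sq_hasSum : HasSum (fun j : ℕ => 1 / (2 * (j : ℝ) + 1) ^ 2) (π ^ 2 / 8) := by
  have h := (odd_hasSum (u := 1 / 2) (by norm_num) le_rfl).div_const 2
  have e : (fun j : ℕ => 1 / (2 * (j : ℝ) + 1) ^ 2)
      = fun j : ℕ => (1 - Real.cos (2 * π * (2 * j + 1) * (1 / 2))) / (2 * (j : ℝ) + 1) ^ 2 / 2 := by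
    funext j
    have : Real.cos (2 * π * (2 * j + 1) * (1 / 2)) = -1 := by
      rw [show 2 * π * (2 * (j : ℝ) + 1) * (1 / 2) = π + (j : ℝ) * (2 * π) by ring,
        Real.cos_add_nat_mul_two_pi, Real.cos_pi]
    rw [this]
    field_simp
    norm_num
  rw [e]
  have e2 : π ^ 2 / 8 = π ^ 2 * (1 / 2) / 2 / 2 := by ring
  rw [e2]
  exact h

/-- partial sums of the triangle wave -/
theorem tri_le_abs (L : ℝ) (hL : 0 < L) (M : ℕ) (x : ℝ) :
    4 * L / π ^ 2 * ∑ j ∈ range M, (1 - Real.cos ((2 * j + 1) * π * x / L)) / (2 * (j : ℝ) + 1) ^ 2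
      ≤ |x| := by
  set z : ℤ := round (x / (2 * L)) with hz
  set y : ℝ := x - 2 * L * z with hy
  have h2L : 0 < 2 * L := by linarith
  have hy1 : |y| ≤ |x| := by
    have h := round_le (x / (2 * L)) 0
    rw [← hz] at h
    have e1 : y = 2 * L * (x / (2 * L) - z) := by rw [hy]; field_simp
    have e2 : x = 2 * L * (x / (2 * L) - (0 : ℤ)) := by push_cast; field_simp; ring
    rw [e1, abs_mul]
    calc |2 * L| * |x / (2 * L) - z| ≤ |2 * L| * |x / (2 * L) - (0 : ℤ)| :=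
          mul_le_mul_of_nonneg_left h (abs_nonneg _)
      _ = |x| := by rw [← abs_mul, ← e2]
  have hy2 : |y| ≤ L := by
    have h := abs_sub_round (x / (2 * L))
    rw [← hz] at h
    have e1 : y = 2 * L * (x / (2 * L) - z) := by rw [hy]; field_simp
    rw [e1, abs_mul, abs_of_pos h2L]
    nlinarith
  set u : ℝ := |y| / (2 * L) with hu
  have hu0 : 0 ≤ u := by positivity
  have hu1 : u ≤ 1 / 2 := by rw [hu, div_le_iff₀ h2L]; linarith
  have hs := odd_hasSum hu0 hu1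
  have hcos : ∀ j : ℕ, Real.cos ((2 * j + 1) * π * x / L) = Real.cos (2 * π * (2 * j + 1) * u) := by
    intro j
    have e3 : (2 * (j : ℝ) + 1) * π * x / L = (2 * j + 1) * π * y / L + (((2 * j + 1) * z : ℤ) : ℝ) * (2 * π) := by
      rw [hy]; push_cast; field_simp; ring
    rw [e3, Real.cos_add_int_mul_two_pi, ← Real.cos_abs]
    congr 1
    rw [hu]
    have : (2 * (j : ℝ) + 1) * π * y / L = ((2 * j + 1) * π / L) * y := by ring
    rw [this, abs_mul, abs_of_nonneg (by positivity)]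
    field_simp
  have hle : ∑ j ∈ range M, (1 - Real.cos ((2 * j + 1) * π * x / L)) / (2 * (j : ℝ) + 1) ^ 2
      ≤ π ^ 2 * u / 2 := by
    rw [Finset.sum_congr rfl fun j _ => by rw [hcos j]]
    refine sum_le_hasSum (range M) (fun j _ => ?_) hs
    have := Real.cos_le_one (2 * π * (2 * j + 1) * u)
    exact div_nonneg (by linarith) (by positivity)
  have hπ : 0 < π ^ 2 := by positivity
  calc 4 * L / π ^ 2 * ∑ j ∈ range M, (1 - Real.cos ((2 * j + 1) * π * x / L)) / (2 * (j : ℝ) + 1) ^ 2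
      ≤ 4 * L / π ^ 2 * (π ^ 2 * u / 2) := mul_le_mul_of_nonneg_left hle (by positivity)
    _ = |y| := by rw [hu]; field_simp; ring
    _ ≤ |x| := hy1

end Pool.Agent.PC55
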