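import Pool.Agent.PC55.Avg
import Pool.Agent.PC55.Tri

/-!
Khintchine inequality with a constant close to the Gaussian one for spread out coefficients,
and the combined inequality used in the potential argument.
-/

set_option autoImplicit false
open Finset Real

namespace Pool.Agent.PC55

lemma Ex_cos : ∀ (m : ℕ) (a : Fin m → ℝ) (x : ℝ),
    Ex (fun v => Real.cos (x + lin a v)) = Real.cos x * ∏ k, Real.cos (a k)
  | 0, a, x => by simp [Ex, lin]
  | m + 1, a, x => by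
      rw [Ex_succ]
      have e1 : Ex (fun v => Real.cos (x + lin a (Fin.cons true v)))
          = Ex (fun v => Real.cos (x + a 0 + lin (fun k => a k.succ) v)) := by
        congr 1; funext v; rw [lin_cons, sg_true]; congr 1; ring
      have e2 : Ex (fun v => Real.cos (x + lin a (Fin.cons false v)))
          = Ex (fun v => Real.cos (x - a 0 + lin (fun k => a k.succ) v)) := by
        congr 1; funext v; rw [lin_cons, sg_false]; congr 1; ring
      rw [e1, e2, Ex_cos m, Ex_cos m, Fin.prod_univ_succ, Real.cos_add, Real.cos_sub]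
      ring

lemma cos_le_exp {y : ℝ} (hy : |y| ≤ 1) : Real.cos y ≤ Real.exp (-(y ^ 2 / 2)) := by
  have h1 := (abs_le.1 (Real.cos_bound hy)).2
  have h2 : |y| ^ 4 = y ^ 4 := by
    rw [show |y| ^ 4 = (|y| ^ 2) ^ 2 by ring, sq_abs]; ring
  rw [h2] at h1
  have hy2 : y ^ 2 ≤ 1 := by
    rw [← sq_abs]; nlinarith [abs_nonneg y]
  have h3 : Real.exp (-(y ^ 2 / 2)) = Real.exp (-(y ^ 2 / 4)) ^ 2 := by
    rw [← Real.exp_nat_mul]; congr 1; push_cast; ring
  have h4 : 1 - y ^ 2 / 4 ≤ Real.exp (-(y ^ 2 / 4)) := by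
    have := Real.add_one_le_exp (-(y ^ 2 / 4)); linarith
  have h5 : (1 - y ^ 2 / 4) ^ 2 ≤ Real.exp (-(y ^ 2 / 4)) ^ 2 :=
    pow_le_pow_left₀ (by nlinarith) h4 2
  rw [h3]
  nlinarith [sq_nonneg (y ^ 2)]

lemma prod_cos_le {m : ℕ} (a : Fin m → ℝ) (ha : ∀ k, |a k| ≤ 1) :
    ∏ k, Real.cos (a k) ≤ Real.exp (-(nrm a ^ 2 / 2)) := by
  rw [nrm_sq]
  have e : -((∑ k, a k ^ 2) / 2) = ∑ k, -(a k ^ 2 / 2) := by
    rw [Finset.sum_neg_distrib, Finset.sum_div]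
  rw [e, Real.exp_sum]
  apply Finset.prod_le_prod
  · intro k _
    have h := ha k
    have hpi := Real.pi_gt_three
    apply Real.cos_nonneg_of_neg_pi_div_two_le_of_le <;>
      [linarith [neg_abs_le (a k)]; linarith [le_abs_self (a k)]]
  · intro k _
    exact cos_le_exp (ha k)

lemma lin_smul {m : ℕ} (t : ℝ) (a : Fin m → ℝ) (v : Fin m → Bool) :
    lin (fun k => t * a k) v = t * lin a v := by
  unfold lin
  rw [Finset.mul_sum]
  exact Finset.sum_congr rfl fun k _ => by ring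

lemma nrm_smul_sq {m : ℕ} (t : ℝ) (a : Fin m → ℝ) :
    nrm (fun k => t * a k) ^ 2 = t ^ 2 * nrm a ^ 2 := by
  rw [nrm_sq, nrm_sq, Finset.mul_sum]
  exact Finset.sum_congr rfl fun k _ => by ring

lemma q_bound : Real.exp (-(π ^ 2 / 18)) ≤ 5783 / 10000 := by
  have hpi : (3.1415 : ℝ) < π := Real.pi_gt_d4
  have h1 : (0.548 : ℝ) ≤ π ^ 2 / 18 := by nlinarith
  have h2 := Real.sum_le_exp_of_nonneg (x := (0.548 : ℝ)) (by norm_num) 5
  have h3 : (1.7293 : ℝ) ≤ Real.exp 0.548 := by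
    refine le_trans ?_ h2
    norm_num [Finset.sum_range_succ, Nat.factorial]
  have h4 : Real.exp (-(π ^ 2 / 18)) ≤ Real.exp (-(0.548)) := Real.exp_le_exp.2 (by linarith)
  refine h4.trans ?_
  rw [Real.exp_neg]
  rw [inv_le_comm₀ (Real.exp_pos _) (by norm_num)]
  refine le_trans ?_ h3
  norm_num

theorem khin : ∃ δ : ℝ, 0 < δ ∧ ∀ (m : ℕ) (a : Fin m → ℝ), (∀ k, |a k| ≤ δ * nrm a) →
    79 / 100 * nrm a ≤ Ex (fun v => |lin a v|) := by
  have hten := odd_sq_hasSum.tendsto_sum_nat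
  have hev := hten.eventually (lt_mem_nhds (show π ^ 2 / 8 - 1 / 10000 < π ^ 2 / 8 by linarith))
  obtain ⟨M, hM, hM1⟩ := (hev.and (Filter.eventually_ge_atTop 1)).exists
  have hpi0 := Real.pi_pos
  have hMpos : (1 : ℝ) ≤ M := by exact_mod_cast hM1
  refine ⟨3 / (2 * M * π), by positivity, fun m a ha => ?_⟩
  rcases (nrm_nonneg a).eq_or_lt with h0 | h0
  · rw [← h0]
    simpa using Ex_nonneg (f := fun v => |lin a v|) fun v => abs_nonneg _
  set σ := nrm a with hσ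
  have htri : ∀ v, 4 * (3 * σ) / π ^ 2 * ∑ j ∈ range M,
      (1 - Real.cos ((2 * j + 1) * π * lin a v / (3 * σ))) / (2 * (j : ℝ) + 1) ^ 2 ≤ |lin a v| :=
    fun v => tri_le_abs (3 * σ) (by linarith) M (lin a v)
  have h1 := Ex_mono htri
  rw [Ex_mul, Ex_sum] at h1
  have hterm : ∀ j ∈ range M, (1 - Real.exp (-(π ^ 2 / 18)) ^ ((2 * j + 1) ^ 2)) / (2 * (j : ℝ) + 1) ^ 2
      ≤ Ex (fun v => (1 - Real.cos ((2 * j + 1) * π * lin a v / (3 * σ))) / (2 * (j : ℝ) + 1) ^ 2) := by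
    intro j hj
    have hjM : (j : ℝ) + 1 ≤ M := by exact_mod_cast Finset.mem_range.1 hj
    set t : ℝ := (2 * j + 1) * π / (3 * σ) with ht
    have ht0 : 0 < t := by positivity
    have e1 : (fun v => (1 - Real.cos ((2 * j + 1) * π * lin a v / (3 * σ))) / (2 * (j : ℝ) + 1) ^ 2)
        = fun v => (1 / (2 * (j : ℝ) + 1) ^ 2) * (1 - Real.cos (0 + lin (fun k => t * a k) v)) := by
      funext v
      rw [lin_smul, zero_add, ht]
      rw [show (2 * (j : ℝ) + 1) * π / (3 * σ) * lin a v = (2 * j + 1) * π * lin a v / (3 * σ) by ring]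
      ring
    rw [e1, Ex_mul, Ex_sub, Ex_const, Ex_cos, Real.cos_zero, one_mul]
    have h2 : ∏ k, Real.cos (t * a k) ≤ Real.exp (-(nrm (fun k => t * a k) ^ 2 / 2)) := by
      apply prod_cos_le
      intro k
      rw [abs_mul, abs_of_pos ht0]
      calc t * |a k| ≤ t * (3 / (2 * M * π) * σ) := mul_le_mul_of_nonneg_left (ha k) ht0.le
        _ = (2 * j + 1) / (2 * M) := by rw [ht]; field_simp
        _ ≤ 1 := by rw [div_le_one (by positivity)]; linarith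
    have h3 : Real.exp (-(nrm (fun k => t * a k) ^ 2 / 2))
        = Real.exp (-(π ^ 2 / 18)) ^ ((2 * j + 1) ^ 2) := by
      rw [nrm_smul_sq, ← Real.exp_nat_mul]
      congr 1
      rw [ht, ← hσ]
      push_cast
      field_simp
      ring
    rw [h3] at h2
    rw [div_eq_mul_inv, mul_comm, ← one_div]
    exact mul_le_mul_of_nonneg_left (by linarith) (by positivity)
  have h4 := Finset.sum_le_sum hterm
  set q := Real.exp (-(π ^ 2 / 18)) with hq
  have hq0 : 0 < q := Real.exp_pos _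
  have hq1 : q ≤ 5783 / 10000 := q_bound
  have hq9 : q ^ 9 ≤ 73 / 10000 := by
    calc q ^ 9 ≤ (5783 / 10000 : ℝ) ^ 9 := pow_le_pow_left₀ hq0.le hq1 9
      _ ≤ 73 / 10000 := by norm_num
  -- lower bound of the exponential sum
  have h5 : (π ^ 2 / 8 - 1 / 10000) - q - q ^ 9 * (π ^ 2 / 8 - 1)
      ≤ ∑ j ∈ range M, (1 - q ^ ((2 * j + 1) ^ 2)) / (2 * (j : ℝ) + 1) ^ 2 := by
    obtain ⟨M', rfl⟩ : ∃ M', M = M' + 1 := ⟨M - 1, by omega⟩
    have hS : ∑ j ∈ range (M' + 1), 1 / (2 * (j : ℝ) + 1) ^ 2 ≤ π ^ 2 / 8 :=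
      sum_le_hasSum (range (M' + 1)) (fun j _ => by positivity) odd_sq_hasSum
    rw [Finset.sum_range_succ'] at hS hM ⊢
    have e0 : (1 - q ^ ((2 * 0 + 1) ^ 2)) / (2 * ((0 : ℕ) : ℝ) + 1) ^ 2 = 1 - q := by norm_num
    have e0' : 1 / (2 * ((0 : ℕ) : ℝ) + 1) ^ 2 = 1 := by norm_num
    rw [e0]
    rw [e0'] at hS hM
    have h6 : (1 - q ^ 9) * ∑ j ∈ range M', 1 / (2 * ((j + 1 : ℕ) : ℝ) + 1) ^ 2
        ≤ ∑ j ∈ range M', (1 - q ^ ((2 * (j + 1) + 1) ^ 2)) / (2 * ((j + 1 : ℕ) : ℝ) + 1) ^ 2 := by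
      rw [Finset.mul_sum]
      apply Finset.sum_le_sum
      intro j _
      rw [mul_one_div]
      apply div_le_div_of_nonneg_right _ (by positivity)
      have : q ^ ((2 * (j + 1) + 1) ^ 2) ≤ q ^ 9 :=
        pow_le_pow_of_le_one hq0.le (by linarith)
          (le_trans (by norm_num) (Nat.pow_le_pow_left (show 3 ≤ 2 * (j + 1) + 1 by omega) 2))
      linarith
    have h7 : 0 ≤ q ^ 9 := by positivity
    nlinarith [h6, hS, hM, h7]
  have hpi1 : (3.1415 : ℝ) < π := Real.pi_gt_d4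
  have hpi2 : π < (3.1416 : ℝ) := Real.pi_lt_d4
  have hπ2 : (9.869 : ℝ) < π ^ 2 := by nlinarith
  have hπ3 : π ^ 2 < (9.8697 : ℝ) := by nlinarith
  have h8 : 79 / 100 ≤ 12 / π ^ 2 * ((π ^ 2 / 8 - 1 / 10000) - q - q ^ 9 * (π ^ 2 / 8 - 1)) := by
    rw [div_mul_eq_mul_div, le_div_iff₀ (by positivity)]
    have h9 : q ^ 9 * (π ^ 2 / 8 - 1) ≤ 73 / 10000 * (9.8697 / 8 - 1) := by
      apply mul_le_mul hq9 (by linarith) (by linarith) (by norm_num)
    nlinarith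
  calc 79 / 100 * σ ≤ (12 / π ^ 2 * ((π ^ 2 / 8 - 1 / 10000) - q - q ^ 9 * (π ^ 2 / 8 - 1))) * σ :=
        mul_le_mul_of_nonneg_right h8 h0.le
    _ = 4 * (3 * σ) / π ^ 2 * ((π ^ 2 / 8 - 1 / 10000) - q - q ^ 9 * (π ^ 2 / 8 - 1)) := by ring
    _ ≤ 4 * (3 * σ) / π ^ 2 * ∑ j ∈ range M, (1 - q ^ ((2 * j + 1) ^ 2)) / (2 * (j : ℝ) + 1) ^ 2 :=
        mul_le_mul_of_nonneg_left h5 (by positivity)
    _ ≤ _ := le_trans (mul_le_mul_of_nonneg_left h4 (by positivity)) h1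

/-- the combined inequality -/
theorem combined : ∃ δ : ℝ, 0 < δ ∧ ∀ (m : ℕ) (a g : Fin m → ℝ), (∀ k, 0 ≤ a k) →
    (∀ k, 0 ≤ g k) → (∀ k, g k ≤ δ) → ∑ k, g k ^ 2 ≤ 1 →
    787 / 1000 * ∑ k, g k * a k + 1 / 5000 * nrm a ≤ Ex (fun v => |lin a v|) := by
  classical
  obtain ⟨δ, hδ, hk⟩ := khin
  set δ₂ := δ / 2 with hδ₂
  have hδ₂0 : 0 < δ₂ := by positivity
  refine ⟨δ₂ / 1000, by positivity, fun m a g ha hg hgδ hg1 => ?_⟩
  rcases (nrm_nonneg a).eq_or_lt with h0 | h0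
  · have hz : ∀ k, a k = 0 := by
      intro k
      have h1 : ∑ k, a k ^ 2 = 0 := by rw [← nrm_sq, ← h0]; ring
      have h2 := (Finset.sum_eq_zero_iff_of_nonneg (fun k _ => sq_nonneg (a k))).1 h1 k (mem_univ k)
      exact pow_eq_zero_iff (two_ne_zero) |>.1 h2
    rw [← h0]
    simp only [hz, mul_zero, Finset.sum_const_zero, add_zero]
    exact Ex_nonneg fun v => abs_nonneg _
  set σ := nrm a with hσ
  set I : Finset (Fin m) := univ.filter (fun k => a k ≤ δ₂ * σ) with hI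
  set aI : Fin m → ℝ := fun k => if k ∈ I then a k else 0 with haI
  have hsum : ∑ k, g k * a k = ∑ k, g k * aI k + ∑ k ∈ Iᶜ, g k * a k := by
    have e : ∀ k, g k * a k = g k * aI k + (if k ∈ Iᶜ then g k * a k else 0) := by
      intro k
      simp only [haI, Finset.mem_compl]
      by_cases h : k ∈ I <;> simp [h]
    rw [Finset.sum_congr rfl fun k _ => e k, Finset.sum_add_distrib, Finset.sum_ite_mem,
      Finset.univ_inter]
  -- Cauchy-Schwarz on `I`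
  have hCS : ∑ k, g k * aI k ≤ nrm aI := by
    have h := Finset.sum_mul_sq_le_sq_mul_sq univ g aI
    rw [← nrm_sq aI] at h
    have h2 : (∑ k, g k * aI k) ^ 2 ≤ nrm aI ^ 2 := by
      refine h.trans ?_
      have := mul_le_mul_of_nonneg_right hg1 (sq_nonneg (nrm aI))
      linarith
    exact le_of_sq_le_sq h2 (nrm_nonneg _)
  -- the big ones
  have hcard : ((Iᶜ).card : ℝ) * (δ₂ * σ) ^ 2 ≤ σ ^ 2 := by
    have h1 : ((Iᶜ).card : ℝ) * (δ₂ * σ) ^ 2 ≤ ∑ k ∈ Iᶜ, a k ^ 2 := by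
      rw [← nsmul_eq_mul]
      apply Finset.card_nsmul_le_sum
      intro k hk'
      have : ¬ (a k ≤ δ₂ * σ) := fun h => Finset.mem_compl.1 hk' (Finset.mem_filter.2 ⟨mem_univ _, h⟩)
      exact pow_le_pow_left₀ (by positivity) (not_le.1 this).le 2
    refine h1.trans ?_
    rw [hσ, nrm_sq]
    exact Finset.sum_le_sum_of_subset_of_nonneg (Finset.subset_univ _) fun k _ _ => sq_nonneg _
  have hbig1 : (∑ k ∈ Iᶜ, a k) ^ 2 ≤ (σ / δ₂) ^ 2 := by
    have h1 := sq_sum_le_card_mul_sum_sq (s := Iᶜ) (f := a)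
    have h2 : ∑ k ∈ Iᶜ, a k ^ 2 ≤ σ ^ 2 := by
      rw [hσ, nrm_sq]
      exact Finset.sum_le_sum_of_subset_of_nonneg (Finset.subset_univ _) fun k _ _ => sq_nonneg _
    have h3 : ((Iᶜ).card : ℝ) * δ₂ ^ 2 ≤ 1 := by
      have : ((Iᶜ).card : ℝ) * δ₂ ^ 2 * σ ^ 2 ≤ 1 * σ ^ 2 := by nlinarith
      exact le_of_mul_le_mul_right this (by positivity)
    rw [div_pow, le_div_iff₀ (by positivity)]
    have h4 : (0 : ℝ) ≤ (Iᶜ).card := Nat.cast_nonneg _
    calc (∑ k ∈ Iᶜ, a k) ^ 2 * δ₂ ^ 2 ≤ (((Iᶜ).card : ℝ) * ∑ k ∈ Iᶜ, a k ^ 2) * δ₂ ^ 2 :=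
          mul_le_mul_of_nonneg_right h1 (by positivity)
      _ ≤ (((Iᶜ).card : ℝ) * σ ^ 2) * δ₂ ^ 2 :=
          mul_le_mul_of_nonneg_right (mul_le_mul_of_nonneg_left h2 h4) (by positivity)
      _ = (((Iᶜ).card : ℝ) * δ₂ ^ 2) * σ ^ 2 := by ring
      _ ≤ 1 * σ ^ 2 := mul_le_mul_of_nonneg_right h3 (by positivity)
      _ = σ ^ 2 := one_mul _
  have hbig2 : ∑ k ∈ Iᶜ, a k ≤ σ / δ₂ := le_of_sq_le_sq hbig1 (by positivity)
  have hbig3 : ∑ k ∈ Iᶜ, g k * a k ≤ 1 / 1000 * σ := by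
    calc ∑ k ∈ Iᶜ, g k * a k ≤ ∑ k ∈ Iᶜ, δ₂ / 1000 * a k :=
          Finset.sum_le_sum fun k _ => mul_le_mul_of_nonneg_right (hgδ k) (ha k)
      _ = δ₂ / 1000 * ∑ k ∈ Iᶜ, a k := by rw [Finset.mul_sum]
      _ ≤ δ₂ / 1000 * (σ / δ₂) := mul_le_mul_of_nonneg_left hbig2 (by positivity)
      _ = 1 / 1000 * σ := by field_simp
  rw [hsum]
  by_cases hcase : σ / 2 ≤ nrm aI
  · have h1 : 79 / 100 * nrm aI ≤ Ex (fun v => |lin aI v|) := by
      apply hk
      intro k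
      by_cases h : k ∈ I
      · have hb : a k ≤ δ₂ * σ := (Finset.mem_filter.1 h).2
        simp only [haI, h, if_true]
        rw [abs_of_nonneg (ha k)]
        have : δ₂ * σ ≤ δ * nrm aI := by rw [hδ₂]; nlinarith
        linarith
      · simp only [haI, h, if_false, abs_zero]
        exact mul_nonneg hδ.le (nrm_nonneg _)
    have h2 : Ex (fun v => |lin aI v|) ≤ Ex (fun v => |lin a v|) := Ex_restrict a I
    linarith
  · have h1 := half_nrm_le a
    rw [← hσ] at h1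
    linarith

end Pool.Agent.PC55
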