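import Pool.Agent.PC55.Conc

/-!
The asymptotic statement.
-/

set_option autoImplicit false
open Finset Real Filter Topology

namespace Pool.Agent.PC55

/-- with at most `(0.5001)^2 n` patterns the covering probability is small -/
theorem main_small (η : ℝ) (hη : 0 < η) :
    ∀ᶠ n : ℕ in atTop, ∀ m : ℕ, (m : ℝ) ≤ (5001 / 10000) ^ 2 * n →
      Pb n (fun _ : Fin m => 0) ≤ η := by
  obtain ⟨δ, hδ, hcomb⟩ := combined
  set lam : ℝ := 1 + 3 / η with hlam
  have hlam1 : 1 ≤ lam := by
    have : 0 < 3 / η := by positivity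
    linarith
  have hlamη : 1 / lam ^ 2 ≤ η / 3 := by
    rw [div_le_div_iff₀ (by positivity) (by norm_num)]
    have h1 : η * lam = η + 3 := by rw [hlam]; field_simp
    nlinarith
  set lr : ℝ := Real.log (1574 / 1000 * lam) with hlr
  have hlr0 : 0 < lr := Real.log_pos (by linarith)
  set a : ℝ := 1 / (1 + 7200 * lr) with ha
  have ha0 : 0 < a := by positivity
  have ha1 : a ≤ 1 := by
    rw [ha, div_le_one (by positivity)]; linarith
  have halr : 36 / 10 * lr * a ≤ 1 / 2000 := by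
    rw [ha, mul_one_div, div_le_div_iff₀ (by positivity) (by norm_num)]
    linarith
  set β : ℝ := 20 / 7 / a with hβ
  set Cw : ℝ := 42 / 10 / a + 11 with hCw
  -- the limits
  have hsq : Tendsto (fun n : ℕ => √(n : ℝ)) atTop atTop :=
    Real.tendsto_sqrt_atTop.comp tendsto_natCast_atTop_atTop
  have hM : Tendsto (fun N : ℝ => (5001 / 10000 * N) ^ 2) atTop atTop := by
    apply (tendsto_pow_atTop (two_ne_zero)).comp
    exact tendsto_id.const_mul_atTop (by norm_num)
  have e1 : ∀ᶠ N : ℝ in atTop, (5000 : ℝ) ≤ N := eventually_ge_atTop _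
  have e2 : ∀ᶠ N : ℝ in atTop, 13 / 10 * Real.log (lam ^ 2 * (5001 / 10000 * N) ^ 2) ≤ N / 2000 := by
    have h1 : ∀ᶠ N : ℝ in atTop, ‖Real.log N‖ ≤ 1 / 10400 * ‖id N‖ :=
      Real.isLittleO_log_id_atTop.bound (by norm_num)
    have h2 : ∀ᶠ N : ℝ in atTop, 5200 * Real.log (lam ^ 2 * (5001 / 10000) ^ 2) ≤ N :=
      eventually_ge_atTop _
    filter_upwards [h1, h2, eventually_ge_atTop (1 : ℝ)] with N h1 h2 h3
    have hN0 : 0 < N := by linarith
    rw [Real.norm_eq_abs, Real.norm_eq_abs, abs_of_nonneg (Real.log_nonneg h3), id,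
      abs_of_pos hN0] at h1
    have e : lam ^ 2 * (5001 / 10000 * N) ^ 2 = (lam ^ 2 * (5001 / 10000) ^ 2) * N ^ 2 := by ring
    have hl : 0 < lam := by linarith
    rw [e, Real.log_mul (by positivity) (by positivity), Real.log_pow]
    push_cast
    linarith
  have e3 : ∀ᶠ N : ℝ in atTop, 4 ≤ a * N :=
    (tendsto_id.const_mul_atTop ha0).eventually (eventually_ge_atTop _)
  have e4 : ∀ᶠ N : ℝ in atTop, 1 ≤ δ ^ 2 * (5001 / 10000 * N) ^ 2 :=
    (hM.const_mul_atTop (by positivity : 0 < δ ^ 2)).eventually (eventually_ge_atTop _)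
  have e5 : ∀ᶠ N : ℝ in atTop, Real.exp (-(7 * a * N / 65000000)) < η / 3 := by
    have h1 : Tendsto (fun N : ℝ => 7 * a * N / 65000000) atTop atTop := by
      have : Tendsto (fun N : ℝ => (7 * a / 65000000) * N) atTop atTop :=
        tendsto_id.const_mul_atTop (by positivity)
      refine this.congr fun N => ?_
      ring
    have h2 : Tendsto (fun N : ℝ => Real.exp (-(7 * a * N / 65000000))) atTop (𝓝 0) :=
      Real.tendsto_exp_neg_atTop_nhds_zero.comp h1
    exact h2.eventually (gt_mem_nhds (by positivity))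
  have e6 : ∀ᶠ N : ℝ in atTop,
      Real.exp (β * Cw + β ^ 2 / 2) / (δ ^ 4 * (5001 / 10000 * N) ^ 2) < η / 3 := by
    have h1 : Tendsto (fun N : ℝ => δ ^ 4 * (5001 / 10000 * N) ^ 2) atTop atTop :=
      hM.const_mul_atTop (by positivity)
    exact (h1.const_div_atTop _).eventually (gt_mem_nhds (by positivity))
  filter_upwards [hsq.eventually e1, hsq.eventually e2, hsq.eventually e3, hsq.eventually e4,
    hsq.eventually e5, hsq.eventually e6] with n h1 h2 h3 h4 h5 h6
  intro m hm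
  have hn : (n : ℝ) = √(n : ℝ) ^ 2 := (Real.sq_sqrt (Nat.cast_nonneg n)).symm
  have hm' : (m : ℝ) ≤ (5001 / 10000 * √(n : ℝ)) ^ 2 := by
    rw [mul_pow, ← hn]; exact hm
  have := concrete hδ hcomb hlam1 hlr ha0 ha1 halr n m (√(n : ℝ)) _ β Cw h1 hn rfl hm' hβ hCw
    h2 h3 h4
  linarith

/-- the covering probability of the problem is `Pb` -/
theorem card_eq_Pb (m n : ℕ) :
    ((Finset.univ.filter (fun V : Fin m → Fin n → Bool =>
        ∀ w : Fin n → Bool, ∃ k : Fin m,
          ∑ i, (if V k i then (1 : ℤ) else -1) * (if w i then (1 : ℤ) else -1) < 0)).card : ℝ)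
      / (2 : ℝ) ^ (n * m) = Pb n (fun _ : Fin m => 0) := by
  classical
  unfold Pb
  congr 1
  rw [Finset.sum_boole]
  norm_cast
  apply Finset.card_equiv (Equiv.piComm (fun (_ : Fin m) (_ : Fin n) => Bool))
  intro V
  rw [Finset.mem_filter, Finset.mem_filter]
  constructor
  · rintro ⟨-, h⟩
    refine ⟨mem_univ _, ?_⟩
    intro w
    obtain ⟨k, hk⟩ := h w
    refine ⟨k, ?_⟩
    rw [zero_add]
    exact hk
  · rintro ⟨-, h⟩
    refine ⟨mem_univ _, ?_⟩
    intro w
    obtain ⟨k, hk⟩ := h w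
    refine ⟨k, ?_⟩
    rw [zero_add] at hk
    exact hk

end Pool.Agent.PC55
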