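import Pool.Agent.PC55.Main

/-!
# The covering probability tends to `0` for every ratio up to `1/4` (indeed up to `0.2501`)

If `n → ∞` and `m ≤ 0.2501 n`, then the probability that `m` random half cubes cover the discrete
cube of dimension `n` tends to `0`. So if Gardner's threshold `t_c` exists, then `t_c ≥ 0.2501`.
-/

set_option autoImplicit false
open Filter Topology

namespace Pool.Agent.PC55.QuarterLowerBound

open Pool.Agent.PC55

/-- If `n j → ∞` and `m j ≤ 0.2501 * n j` for all large `j`, the probability that `m j` independent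
uniform vectors `v_k ∈ {-1,1}^(n j)` give every cube point `w` some `⟨v_k, w⟩ < 0` tends to `0`. -/
theorem result :
    ∀ (m n : ℕ → ℕ), Tendsto n atTop atTop →
      (∀ᶠ j in atTop, (m j : ℝ) ≤ 0.2501 * (n j : ℝ)) →
      Tendsto (fun j =>
          ((Finset.univ.filter (fun V : Fin (m j) → Fin (n j) → Bool =>
              ∀ w : Fin (n j) → Bool, ∃ k : Fin (m j),
                ∑ i, (if V k i then (1 : ℤ) else -1) * (if w i then (1 : ℤ) else -1) < 0)).card : ℝ)
            / (2 : ℝ) ^ (n j * m j)) atTop (𝓝 0) := by
  intro m n hn hm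
  have e : (fun j =>
          ((Finset.univ.filter (fun V : Fin (m j) → Fin (n j) → Bool =>
              ∀ w : Fin (n j) → Bool, ∃ k : Fin (m j),
                ∑ i, (if V k i then (1 : ℤ) else -1) * (if w i then (1 : ℤ) else -1) < 0)).card : ℝ)
            / (2 : ℝ) ^ (n j * m j)) = fun j => Pb (n j) (fun _ : Fin (m j) => 0) :=
    funext fun j => card_eq_Pb (m j) (n j)
  rw [e, Metric.tendsto_nhds]
  intro η hη
  have h := hn.eventually (main_small (η / 2) (by positivity))
  filter_upwards [h, hm] with j h1 h2
  have h3 := h1 (m j) (h2.trans (mul_le_mul_of_nonneg_right (by norm_num) (Nat.cast_nonneg _)))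
  have h4 := Pb_nonneg (n j) (fun _ : Fin (m j) => 0)
  rw [Real.dist_eq, sub_zero, abs_of_nonneg h4]
  linarith

end Pool.Agent.PC55.QuarterLowerBound
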