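import Mathlib

/-!
The explicit schedule and the step inequality for it. Here `x` is the square root of the (shifted)
number of remaining coordinates and `N` the square root of the number of coordinates.
-/

set_option autoImplicit false
open Real

namespace Pool.Agent.PC55

noncomputable def KK (N x : ℝ) : ℝ := 7 / 10 * x + 2 / 5 * x ^ 2 / N

noncomputable def ell (N κ x : ℝ) : ℝ := Real.log ((7 / 10 / x + 4 / 5 / N) / κ) - 1

noncomputable def PP (N x : ℝ) : ℝ := N * (5 / 2) * Real.log (7 / 10 + 2 / 5 * x / N)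

noncomputable def TH (N κ x : ℝ) : ℝ :=
  2 * KK N x * ell N κ x + 7 / 10 * x + N * (49 / 80) * Real.log (7 / 10 + 4 / 5 * x / N)

section
variable {N κ w x y : ℝ}

lemma KK_pos (hN : 0 < N) (hx : 0 < x) : 0 < KK N x := by unfold KK; positivity

lemma cosh_part (hN : 0 < N) (hx : 3 ≤ x ^ 2) (hx0 : 0 < x) :
    KK N x * (Real.cosh (1 / KK N x) - 1) ≤ 1 / (2 * KK N x) + 73 / 100 / x ^ 3 := by
  set K := KK N x with hK
  have hx1 : 17 / 10 ≤ x := by nlinarith
  have hK1 : 7 / 10 * x ≤ K := by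
    rw [hK]; unfold KK
    have : 0 ≤ 2 / 5 * x ^ 2 / N := by positivity
    linarith
  have hK2 : 1 ≤ K := by linarith
  have hK0 : 0 < K := by linarith
  have h1 := Real.cosh_le_exp_half_sq (1 / K)
  have ht : (1 / K) ^ 2 / 2 ≤ 1 := by
    rw [div_pow, one_pow]
    have : 1 / K ^ 2 ≤ 1 := by
      rw [div_le_one (by positivity)]; nlinarith
    linarith
  have h2 := Real.abs_exp_sub_one_sub_id_le (x := (1 / K) ^ 2 / 2)
    (by rw [abs_of_nonneg (by positivity)]; exact ht)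
  have h3 := (abs_le.1 h2).2
  have h4 : Real.cosh (1 / K) - 1 ≤ (1 / K) ^ 2 / 2 + ((1 / K) ^ 2 / 2) ^ 2 := by linarith
  have h5 := mul_le_mul_of_nonneg_left h4 hK0.le
  have e : K * ((1 / K) ^ 2 / 2 + ((1 / K) ^ 2 / 2) ^ 2) = 1 / (2 * K) + 1 / (4 * K ^ 3) := by
    field_simp; ring
  rw [e] at h5
  have h6 : 1 / (4 * K ^ 3) ≤ 73 / 100 / x ^ 3 := by
    rw [div_le_div_iff₀ (by positivity) (by positivity)]
    have h7 : (7 / 10 * x) ^ 3 ≤ K ^ 3 := pow_le_pow_left₀ (by positivity) hK1 3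
    nlinarith [pow_pos hx0 3]
  linarith

lemma PP_part (hN : 0 < N) (hw : 0 < w) (hx0 : 0 < x) (hwx : w ^ 2 + 1 = x ^ 2) :
    1 / (2 * KK N x) ≤ PP N x - PP N w := by
  have hwx' : w < x := by nlinarith
  set Ax := 7 / 10 + 2 / 5 * x / N with hAx
  set Aw := 7 / 10 + 2 / 5 * w / N with hAw
  have hAx0 : 0 < Ax := by positivity
  have hAw0 : 0 < Aw := by positivity
  have h1 : 1 - Aw / Ax ≤ Real.log Ax - Real.log Aw := by
    have h := Real.one_sub_inv_le_log_of_pos (show 0 < Ax / Aw by positivity)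
    rw [Real.log_div hAx0.ne' hAw0.ne', inv_div] at h
    exact h
  have e : PP N x - PP N w = N * (5 / 2) * (Real.log Ax - Real.log Aw) := by
    unfold PP; ring
  rw [e]
  have h2 : N * (5 / 2) * (1 - Aw / Ax) = (x - w) / Ax := by
    rw [hAx, hAw]; field_simp; ring
  have h3 : (x - w) / Ax ≤ N * (5 / 2) * (Real.log Ax - Real.log Aw) := by
    rw [← h2]
    exact mul_le_mul_of_nonneg_left h1 (by positivity)
  refine le_trans ?_ h3
  have e2 : 1 / (2 * KK N x) = (1 / (2 * x)) / Ax := by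
    unfold KK; rw [hAx]; field_simp
  rw [e2]
  apply div_le_div_of_nonneg_right _ hAx0.le
  rw [div_le_iff₀ (by positivity)]
  nlinarith

/-- the slope function -/
noncomputable def BB (N x : ℝ) : ℝ := 7 / 10 + 4 / 5 * x / N

lemma BB_pos (hN : 0 < N) (hx : 0 < x) : 0 < BB N x := by unfold BB; positivity

lemma BB_mono (hN : 0 < N) (hlt : x ≤ y) : BB N x ≤ BB N y := by
  unfold BB
  have : 4 / 5 * x / N ≤ 4 / 5 * y / N := by
    apply div_le_div_of_nonneg_right _ hN.le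
    linarith
  linarith

lemma ell_diff (hN : 0 < N) (hκ : 0 < κ) (hx0 : 0 < x) (hy0 : 0 < y) :
    ell N κ y - ell N κ x
      = (Real.log (BB N y) - Real.log (BB N x)) - (Real.log y - Real.log x) := by
  have hBx0 := BB_pos hN hx0
  have hBy0 := BB_pos hN hy0
  have ex : (7 / 10 / x + 4 / 5 / N) / κ = BB N x / x / κ := by unfold BB; field_simp
  have ey : (7 / 10 / y + 4 / 5 / N) / κ = BB N y / y / κ := by unfold BB; field_simp
  unfold ell
  rw [ex, ey, Real.log_div (by positivity) hκ.ne', Real.log_div (by positivity) hκ.ne',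
    Real.log_div hBx0.ne' hx0.ne', Real.log_div hBy0.ne' hy0.ne']
  ring

lemma TH_diff (hN : 0 < N) (hκ : 0 < κ) (hx0 : 0 < x) (hy0 : 0 < y) (g h : ℝ)
    (hg : g = Real.log (BB N y) - Real.log (BB N x)) (hh : h = Real.log y - Real.log x) :
    TH N κ y - TH N κ x - 2 * (KK N y - KK N x) * ell N κ x
      = 2 * (KK N y - KK N x) * (g - h)
        + (2 * KK N x * (g - h) + 7 / 10 * (y - x) + N * (49 / 80) * g) := by
  have e : ell N κ y = ell N κ x + (g - h) := by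
    have := ell_diff hN hκ hx0 hy0
    rw [hg, hh]; linarith
  unfold TH
  rw [e, hg]
  unfold BB
  ring

lemma g_lower (hN : 0 < N) (hx0 : 0 < x) (hy0 : 0 < y) (hlt : x ≤ y) (t : ℝ)
    (ht : t = 4 / 5 * (y - x) / (N * BB N x)) :
    t - t ^ 2 / 2 ≤ Real.log (BB N y) - Real.log (BB N x) := by
  have hBx0 := BB_pos hN hx0
  have hBy0 := BB_pos hN hy0
  have ht0 : 0 ≤ t := by
    rw [ht]
    have : 0 ≤ y - x := by linarith
    positivity
  have e : Real.log (BB N y) - Real.log (BB N x) = Real.log (1 + t) := by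
    rw [← Real.log_div hBy0.ne' hBx0.ne']
    congr 1
    rw [ht]
    have : BB N y = BB N x + 4 / 5 * (y - x) / N := by unfold BB; ring
    rw [this]; field_simp
  rw [e]
  have h3 := Real.le_log_one_add_of_nonneg ht0
  refine le_trans ?_ h3
  rw [le_div_iff₀ (by positivity)]
  nlinarith [pow_nonneg ht0 3]

lemma bracket (hN : 0 < N) (hx0 : 0 < x) (hy0 : 0 < y) (hlt : x ≤ y) (g h : ℝ)
    (hg : g = Real.log (BB N y) - Real.log (BB N x)) (hh1 : h ≤ (y - x) / x) :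
    -(2 / 5 / N * (y - x) ^ 2)
      ≤ 2 * KK N x * (g - h) + 7 / 10 * (y - x) + N * (49 / 80) * g := by
  have hBx0 := BB_pos hN hx0
  have hK0 := KK_pos hN hx0
  have h3 := g_lower hN hx0 hy0 hlt _ rfl
  rw [← hg] at h3
  have e1 : 2 * KK N x + N * (49 / 80) = N * (5 / 4) * BB N x ^ 2 := by
    unfold KK BB; field_simp; ring
  have e1' : 2 * KK N x * (g - h) + 7 / 10 * (y - x) + N * (49 / 80) * g
        = (N * (5 / 4) * BB N x ^ 2) * g - 2 * KK N x * h + 7 / 10 * (y - x) := by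
    rw [← e1]; ring
  have h4 := mul_le_mul_of_nonneg_left h3 (show 0 ≤ N * (5 / 4) * BB N x ^ 2 by positivity)
  have e2 : (N * (5 / 4) * BB N x ^ 2) * (4 / 5 * (y - x) / (N * BB N x)
      - (4 / 5 * (y - x) / (N * BB N x)) ^ 2 / 2)
      = BB N x * (y - x) - 2 / 5 / N * (y - x) ^ 2 := by
    field_simp; ring
  have h5 : 2 * KK N x * h ≤ 2 * KK N x * ((y - x) / x) :=
    mul_le_mul_of_nonneg_left hh1 (by positivity)
  have e3 : 2 * KK N x * ((y - x) / x) = (7 / 10 + BB N x) * (y - x) := by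
    unfold KK BB; field_simp; ring
  rw [e2] at h4
  rw [e3] at h5
  rw [e1']
  linarith

lemma diff_facts (hx0 : 0 < x) (hy0 : 0 < y) (hxy : x ^ 2 + 1 = y ^ 2) :
    x < y ∧ y - x ≤ 1 / (2 * x) := by
  have hlt : x < y := by nlinarith
  have hd : (y - x) * (x + y) = 1 := by nlinarith
  refine ⟨hlt, ?_⟩
  rw [le_div_iff₀ (by positivity)]; nlinarith

lemma inv_N (hN : 0 < N) (hx0 : 0 < x) (hxN : x ^ 2 ≤ 2 * N ^ 2) : 1 / N ≤ 1415 / 1000 / x := by
  have hxN' : x ≤ 1415 / 1000 * N := by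
    by_contra hc
    push Not at hc
    nlinarith
  rw [div_le_div_iff₀ hN hx0]
  linarith

lemma b1 (hN : 0 < N) (hx0 : 0 < x) (hy0 : 0 < y) (hxy : x ^ 2 + 1 = y ^ 2)
    (hxN : x ^ 2 ≤ 2 * N ^ 2) : 2 / 5 / N * (y - x) ^ 2 ≤ 15 / 100 / x ^ 3 := by
  obtain ⟨hlt, hd2⟩ := diff_facts hx0 hy0 hxy
  have hNx := inv_N hN hx0 hxN
  have hx3 : 0 < x ^ 3 := by positivity
  have hyx2 : (y - x) ^ 2 ≤ 1 / (4 * x ^ 2) := by
    have e : 1 / (4 * x ^ 2) = (1 / (2 * x)) ^ 2 := by field_simp; norm_num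
    rw [e]
    exact pow_le_pow_left₀ (by linarith) hd2 2
  have h6 : 2 / 5 / N ≤ 2 / 5 * (1415 / 1000 / x) := by
    have e : 2 / 5 / N = 2 / 5 * (1 / N) := by ring
    rw [e]; exact mul_le_mul_of_nonneg_left hNx (by norm_num)
  calc 2 / 5 / N * (y - x) ^ 2 ≤ 2 / 5 * (1415 / 1000 / x) * (1 / (4 * x ^ 2)) :=
        mul_le_mul h6 hyx2 (sq_nonneg _) (by positivity)
    _ = 1415 / 10000 / x ^ 3 := by field_simp; norm_num
    _ ≤ 15 / 100 / x ^ 3 := by
        apply div_le_div_of_nonneg_right _ hx3.le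
        norm_num

lemma b2 (hN : 0 < N) (hx0 : 0 < x) (hy0 : 0 < y) (hxy : x ^ 2 + 1 = y ^ 2)
    (hxN : x ^ 2 ≤ 2 * N ^ 2) (δ h : ℝ) (hh0 : 0 ≤ h) (hh1 : h ≤ (y - x) / x)
    (hδ2 : 2 * δ ≤ 7 / 10 / x + 4 / 5 / N) : 2 * δ * h ≤ 92 / 100 / x ^ 3 := by
  obtain ⟨hlt, hd2⟩ := diff_facts hx0 hy0 hxy
  have hNx := inv_N hN hx0 hxN
  have hx3 : 0 < x ^ 3 := by positivity
  have h7 : h ≤ 1 / (2 * x ^ 2) := by
    refine hh1.trans ?_
    have e : 1 / (2 * x ^ 2) = 1 / (2 * x) / x := by field_simp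
    rw [e]
    exact div_le_div_of_nonneg_right hd2 hx0.le
  have h8 : 2 * δ ≤ (1832 / 1000) / x := by
    refine hδ2.trans ?_
    have e : 4 / 5 / N = 4 / 5 * (1 / N) := by ring
    have h9 := mul_le_mul_of_nonneg_left hNx (show (0 : ℝ) ≤ 4 / 5 by norm_num)
    have e2 : 4 / 5 * (1415 / 1000 / x) + 7 / 10 / x = 1832 / 1000 / x := by field_simp; norm_num
    rw [e]; linarith
  calc 2 * δ * h ≤ (1832 / 1000) / x * (1 / (2 * x ^ 2)) :=
        mul_le_mul h8 h7 hh0 (by positivity)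
    _ = 916 / 1000 / x ^ 3 := by field_simp; norm_num
    _ ≤ 92 / 100 / x ^ 3 := by
        apply div_le_div_of_nonneg_right _ hx3.le
        norm_num

lemma KK_diff (hN : 0 < N) (hxy : x ^ 2 + 1 = y ^ 2) :
    KK N y - KK N x = 7 / 10 * (y - x) + 2 / 5 / N := by
  unfold KK
  have : 2 / 5 * y ^ 2 / N - 2 / 5 * x ^ 2 / N = 2 / 5 / N := by
    rw [← hxy]; field_simp; ring
  linarith

lemma KK_diff_pos (hN : 0 < N) (hx0 : 0 < x) (hy0 : 0 < y) (hxy : x ^ 2 + 1 = y ^ 2) :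
    0 < KK N y - KK N x := by
  obtain ⟨hlt, -⟩ := diff_facts hx0 hy0 hxy
  rw [KK_diff hN hxy]
  have : 0 < y - x := by linarith
  positivity

lemma KK_diff_le (hN : 0 < N) (hx0 : 0 < x) (hy0 : 0 < y) (hxy : x ^ 2 + 1 = y ^ 2) :
    2 * (KK N y - KK N x) ≤ 7 / 10 / x + 4 / 5 / N := by
  obtain ⟨hlt, hd2⟩ := diff_facts hx0 hy0 hxy
  rw [KK_diff hN hxy]
  have e : 7 / 10 / x = 2 * (7 / 10 * (1 / (2 * x))) := by field_simp
  have e2 : 4 / 5 / N = 2 * (2 / 5 / N) := by ring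
  rw [e, e2]
  linarith

lemma log_part (hN : 0 < N) (hκ : 0 < κ) (hx0 : 0 < x) (hxy0 : 0 < y) (hxy : x ^ 2 + 1 = y ^ 2)
    (hxN : x ^ 2 ≤ 2 * N ^ 2) :
    2 * (KK N y - KK N x) * (Real.log (2 * (KK N y - KK N x) / κ) - 1)
      ≤ TH N κ y - TH N κ x + 27 / 25 / x ^ 3 := by
  obtain ⟨hlt, hd2⟩ := diff_facts hx0 hxy0 hxy
  have hδ0 := KK_diff_pos hN hx0 hxy0 hxy
  have hδ2 := KK_diff_le hN hx0 hxy0 hxy
  have hTH := TH_diff hN hκ hx0 hxy0 _ _ rfl rfl
  have hh1 : Real.log y - Real.log x ≤ (y - x) / x := by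
    have := Real.add_one_le_exp (Real.log (y / x))
    rw [Real.exp_log (by positivity), Real.log_div hxy0.ne' hx0.ne'] at this
    have e : (y - x) / x = y / x - 1 := by field_simp
    rw [e]; linarith
  have hh0 : 0 ≤ Real.log y - Real.log x := by
    linarith [Real.log_le_log hx0 hlt.le]
  have hg0 : 0 ≤ Real.log (BB N y) - Real.log (BB N x) := by
    linarith [Real.log_le_log (BB_pos hN hx0) (BB_mono hN hlt.le)]
  have hbr := bracket hN hx0 hxy0 hlt.le _ _ rfl hh1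
  have hb1 := b1 hN hx0 hxy0 hxy hxN
  have hb2 := b2 hN hx0 hxy0 hxy hxN _ _ hh0 hh1 hδ2
  generalize Real.log y - Real.log x = h at *
  generalize Real.log (BB N y) - Real.log (BB N x) = g at *
  generalize KK N y - KK N x = δ at *
  have h1 : Real.log (2 * δ / κ) - 1 ≤ ell N κ x := by
    unfold ell
    have := Real.log_le_log (show 0 < 2 * δ / κ by positivity)
      (div_le_div_of_nonneg_right hδ2 hκ.le)
    linarith
  have h2 : 2 * δ * (Real.log (2 * δ / κ) - 1) ≤ 2 * δ * ell N κ x :=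
    mul_le_mul_of_nonneg_left h1 (by positivity)
  refine h2.trans ?_
  have hx3 : 0 < x ^ 3 := by positivity
  have hgd : 0 ≤ 2 * δ * g := by positivity
  have e4 : (27 : ℝ) / 25 / x ^ 3 = 92 / 100 / x ^ 3 + 16 / 100 / x ^ 3 := by field_simp; norm_num
  have h10 : (15 : ℝ) / 100 / x ^ 3 ≤ 16 / 100 / x ^ 3 := by
    apply div_le_div_of_nonneg_right _ hx3.le
    norm_num
  have e5 : 2 * δ * (g - h) = 2 * δ * g - 2 * δ * h := by ring
  rw [e5] at hTH
  rw [e4]
  linarith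

lemma inv_part (hx0 : 0 < x) (hy0 : 0 < y) (hx : 3 ≤ x ^ 2) (hxy : x ^ 2 + 1 = y ^ 2) :
    181 / 100 / x ^ 3 ≤ 8 / x - 8 / y := by
  have hy : y ≤ 1155 / 1000 * x := by
    by_contra hc
    push Not at hc
    nlinarith
  have hd : (y - x) * (x + y) = 1 := by nlinarith
  have e : 8 / x - 8 / y = 8 / (x * y * (x + y)) := by
    have : y - x = 1 / (x + y) := by field_simp; linarith
    have e2 : 8 / x - 8 / y = 8 * (y - x) / (x * y) := by field_simp
    rw [e2, this]; field_simp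
  rw [e, div_le_div_iff₀ (by positivity) (by positivity)]
  have h1 : x * y * (x + y) ≤ x * (1155 / 1000 * x) * (x + 1155 / 1000 * x) := by
    apply mul_le_mul _ (by linarith) (by positivity) (by positivity)
    exact mul_le_mul_of_nonneg_left hy hx0.le
  nlinarith [pow_pos hx0 3]

/-- the potential barrier -/
noncomputable def OM (N κ w x : ℝ) : ℝ := PP N w + TH N κ x - 8 / x

/-- one step of the barrier -/
theorem OM_step (hN : 0 < N) (hκ : 0 < κ) (hw : 0 < w) (hx0 : 0 < x) (hy0 : 0 < y)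
    (hwx : w ^ 2 + 1 = x ^ 2) (hxy : x ^ 2 + 1 = y ^ 2) (hx : 3 ≤ x ^ 2) (hxN : x ^ 2 ≤ 2 * N ^ 2) :
    KK N x * (Real.cosh (1 / KK N x) - 1)
      + 2 * (KK N y - KK N x) * (Real.log (2 * (KK N y - KK N x) / κ) - 1)
      ≤ OM N κ x y - OM N κ w x := by
  have h1 := cosh_part hN hx hx0
  have h2 := PP_part hN hw hx0 hwx
  have h3 := log_part hN hκ hx0 hy0 hxy hxN
  have h4 := inv_part hx0 hy0 hx hxy
  have e : (181 : ℝ) / 100 / x ^ 3 = 73 / 100 / x ^ 3 + 27 / 25 / x ^ 3 := by field_simp; norm_num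
  unfold OM
  linarith

end

end Pool.Agent.PC55
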